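import Pool.Agent.Q298.GB.Base

/-! Project GB (helper286), job CO: the coefficients are bounded by the distance. -/

set_option autoImplicit false

namespace Pool.Agent.Q298.GB

open Complex MeasureTheory Filter Topology Set
open Pool.Agent.Q286.BD (cl)
open Pool.Agent.Q286.GB

theorem mu_le (O : LFn) (N : ℕ) : ∑ m ∈ Finset.Icc 1 N, ‖O.mu m‖ ≤
    (N : ℝ) ^ 2 * ∑' n : ℕ, ‖O.mu n‖ * (n : ℝ) ^ (-2 : ℝ) := by
  have h1 : ∑ m ∈ Finset.Icc 1 N, ‖O.mu m‖ ≤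
      ∑ m ∈ Finset.Icc 1 N, (N : ℝ) ^ 2 * (‖O.mu m‖ * (m : ℝ) ^ (-2 : ℝ)) := by
    refine Finset.sum_le_sum fun m hm => ?_
    rw [Finset.mem_Icc] at hm
    have hm0 : (0 : ℝ) < m := by exact_mod_cast hm.1
    have hmN : (m : ℝ) ≤ N := by exact_mod_cast hm.2
    have e : (m : ℝ) ^ (-2 : ℝ) = 1 / (m : ℝ) ^ 2 := by
      rw [Real.rpow_neg hm0.le, one_div]
      congr 1
      exact_mod_cast Real.rpow_natCast (m : ℝ) 2
    rw [e]
    have h2 : 1 ≤ (N : ℝ) ^ 2 * (1 / (m : ℝ) ^ 2) := by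
      rw [mul_one_div, one_le_div (by positivity)]
      exact pow_le_pow_left₀ hm0.le hmN 2
    calc ‖O.mu m‖ = ‖O.mu m‖ * 1 := (mul_one _).symm
      _ ≤ ‖O.mu m‖ * ((N : ℝ) ^ 2 * (1 / (m : ℝ) ^ 2)) :=
        mul_le_mul_of_nonneg_left h2 (norm_nonneg _)
      _ = _ := by ring
  refine h1.trans ?_
  rw [← Finset.mul_sum]
  apply mul_le_mul_of_nonneg_left _ (by positivity)
  exact O.mu_sum.sum_le_tsum _ fun n _ => by positivity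

theorem a_le (O : LFn) (N : ℕ) (a : ℕ → ℂ)
    (hint : IntegrableOn (fun y : ℝ => ‖CC O N a y‖ ^ 2 / y ^ 2) (Ioi 1)) (n : ℕ) (h1 : 1 ≤ n)
    (h2 : n ≤ N) : ‖a n‖ ≤ (1 + 2 * ((N : ℝ) + 1) * Real.sqrt (JE O N a)) *
      ∑ m ∈ Finset.Icc 1 N, ‖O.mu m‖ := by
  set J := Real.sqrt (JE O N a) with hJ
  have hJ0 : 0 ≤ J := Real.sqrt_nonneg _
  rw [a_eq O N a n h1 h2]
  refine (norm_sum_le _ _).trans ?_
  have h3 : ∀ p ∈ n.divisorsAntidiagonal, ‖cc O N a p.1 * O.mu p.2‖ ≤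
      (1 + 2 * ((N : ℝ) + 1) * J) * ‖O.mu p.2‖ := by
    intro p hp
    have hp1 := Nat.mem_divisorsAntidiagonal.1 hp
    have hp2 : 1 ≤ p.1 := Nat.pos_of_ne_zero fun h => hp1.2 (by rw [← hp1.1, h, zero_mul])
    have hp3 : p.1 ≤ N := (Nat.le_of_dvd h1 ⟨p.2, hp1.1.symm⟩).trans h2
    have hp4 : (p.1 : ℝ) ≤ N := by exact_mod_cast hp3
    rw [norm_mul]
    apply mul_le_mul_of_nonneg_right _ (norm_nonneg _)
    refine (cc_le O N a hint p.1 hp2).trans ?_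
    rw [← hJ]
    gcongr
  refine (Finset.sum_le_sum h3).trans ?_
  rw [← Finset.mul_sum]
  apply mul_le_mul_of_nonneg_left _ (by positivity)
  rw [Nat.sum_divisorsAntidiagonal' (fun _ y => ‖O.mu y‖)]
  refine Finset.sum_le_sum_of_subset_of_nonneg ?_ fun _ _ _ => norm_nonneg _
  intro d hd
  rw [Nat.mem_divisors] at hd
  rw [Finset.mem_Icc]
  exact ⟨Nat.pos_of_dvd_of_pos hd.1 h1, (Nat.le_of_dvd h1 hd.1).trans h2⟩

theorem t_CO : S_CO := by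
  intro O
  set M : ℝ := ∑' n : ℕ, ‖O.mu n‖ * (n : ℝ) ^ (-2 : ℝ) with hM
  have hM0 : 0 ≤ M := tsum_nonneg fun n => by positivity
  refine ⟨4 * M + 1, by positivity, ?_⟩
  intro N a hN hint
  have hN' : (1 : ℝ) ≤ N := by exact_mod_cast hN
  have hJ0 : 0 ≤ Real.sqrt (JE O N a) := Real.sqrt_nonneg _
  change _ ≤ (4 * M + 1) * (N : ℝ) ^ 4 * (1 + Real.sqrt (JE O N a))
  set J := Real.sqrt (JE O N a) with hJ
  have h1 : ∀ n ∈ Finset.Icc 1 N, ‖a n‖ ≤ (1 + 2 * ((N : ℝ) + 1) * J) * ((N : ℝ) ^ 2 * M) := by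
    intro n hn
    rw [Finset.mem_Icc] at hn
    refine (a_le O N a hint n hn.1 hn.2).trans ?_
    rw [← hJ]
    exact mul_le_mul_of_nonneg_left (mu_le O N) (by positivity)
  refine (Finset.sum_le_sum h1).trans ?_
  rw [Finset.sum_const, Nat.card_Icc, Nat.add_sub_cancel, nsmul_eq_mul]
  have h2 : 1 + 2 * ((N : ℝ) + 1) * J ≤ 4 * N * (1 + J) := by nlinarith
  calc (N : ℝ) * ((1 + 2 * ((N : ℝ) + 1) * J) * ((N : ℝ) ^ 2 * M))
      ≤ (N : ℝ) * ((4 * N * (1 + J)) * ((N : ℝ) ^ 2 * M)) := by gcongr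
    _ = 4 * M * (N : ℝ) ^ 4 * (1 + J) := by ring
    _ ≤ (4 * M + 1) * (N : ℝ) ^ 4 * (1 + J) := by
        have : 0 ≤ (N : ℝ) ^ 4 * (1 + J) := by positivity
        nlinarith

end Pool.Agent.Q298.GB
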