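import Pool.Agent.Q286.GB.Stm
import Pool.Agent.Q210.BD.TN

/-! Project GB (helper286), job NM: smoothness, support and norms of the test functions. -/

set_option autoImplicit false

namespace Pool.Agent.Q298.GB

open Complex MeasureTheory Filter Topology Set
open Pool.Agent.Q286.BD (cl)
open Pool.Agent.Q286.GB

theorem nm_Hc_one {y : ℝ} (h : y ≤ 1) : Hc y = 1 := by
  unfold Hc
  exact Real.smoothTransition.one_of_one_le (by linarith)

theorem nm_Hc_zero {y : ℝ} (h : 2 ≤ y) : Hc y = 0 := by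
  unfold Hc
  exact Real.smoothTransition.zero_of_nonpos (by linarith)

theorem Hc_nonneg (y : ℝ) : 0 ≤ Hc y := Real.smoothTransition.nonneg _
theorem Hc_le_one (y : ℝ) : Hc y ≤ 1 := Real.smoothTransition.le_one _

theorem Hc_contDiff : ContDiff ℝ 1 Hc := by
  unfold Hc
  exact Real.smoothTransition.contDiff.comp (contDiff_const.sub contDiff_id)

theorem Hd_zero {y : ℝ} (h : y ≤ 1) : deriv Hc y = 0 := by
  have h1 : IsLocalMax Hc y := Eventually.of_forall fun x => by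
    rw [nm_Hc_one h]
    exact Hc_le_one x
  exact h1.deriv_eq_zero

theorem Hd_cont : Continuous (deriv Hc) := Hc_contDiff.continuous_deriv le_rfl

theorem Hd_bdd : ∃ H : ℝ, 0 ≤ H ∧ ∀ y ∈ Icc (0 : ℝ) 2, |deriv Hc y| ≤ H := by
  obtain ⟨H, hH⟩ := (isCompact_Icc (a := (0 : ℝ)) (b := 2)).exists_bound_of_continuousOn
    Hd_cont.continuousOn
  refine ⟨max H 0, le_max_right _ _, fun y hy => ?_⟩
  have := hH y hy
  rw [Real.norm_eq_abs] at this
  exact this.trans (le_max_left _ _)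

theorem poly_bdd (p : Polynomial ℝ) : ∃ P : ℝ, 0 ≤ P ∧ ∀ y ∈ Icc (0 : ℝ) 2,
    |p.eval y| ≤ P ∧ |p.derivative.eval y| ≤ P := by
  obtain ⟨P1, h1⟩ := (isCompact_Icc (a := (0 : ℝ)) (b := 2)).exists_bound_of_continuousOn
    p.continuous.continuousOn
  obtain ⟨P2, h2⟩ := (isCompact_Icc (a := (0 : ℝ)) (b := 2)).exists_bound_of_continuousOn
    p.derivative.continuous.continuousOn
  refine ⟨max (max P1 P2) 0, le_max_right _ _, fun y hy => ⟨?_, ?_⟩⟩
  · have := h1 y hy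
    rw [Real.norm_eq_abs] at this
    exact this.trans ((le_max_left _ _).trans (le_max_left _ _))
  · have := h2 y hy
    rw [Real.norm_eq_abs] at this
    exact this.trans ((le_max_right _ _).trans (le_max_left _ _))

theorem cl_ne (g : ℝ) : cl g ≠ 0 := by
  intro h
  have := congrArg Complex.re h
  unfold cl at this
  simp at this

/-- the formula for the test function -/
noncomputable def kf (g : ℝ) (p : Polynomial ℝ) (τ y : ℝ) : ℂ :=
  (y : ℂ) ^ (-cl g - 1) * ((p.eval (Real.log y / τ) : ℝ) : ℂ) * ((Hc (y * Real.exp (-τ)) : ℝ) : ℂ) -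
  1 / cl g * (y : ℂ) ^ (-cl g - 1) * ((p.derivative.eval (Real.log y / τ) / τ : ℝ) : ℂ) *
    ((Hc (y * Real.exp (-τ)) : ℝ) : ℂ) -
  1 / cl g * (y : ℂ) ^ (-cl g) * ((p.eval (Real.log y / τ) : ℝ) : ℂ) *
    ((deriv Hc (y * Real.exp (-τ)) * Real.exp (-τ) : ℝ) : ℂ)

theorem Phi_deriv (g : ℝ) (p : Polynomial ℝ) (δ T : ℝ) {y : ℝ} (hy : 0 < y)
    (hτ : (1 + δ) * T ≠ 0) :
    HasDerivAt (Phi g p δ T) (-kf g p ((1 + δ) * T) y) y := by
  set τ := (1 + δ) * T with hτd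
  have hy0 : (y : ℂ) ≠ 0 := by exact_mod_cast hy.ne'
  have h1 : HasDerivAt (fun y : ℝ => (y : ℂ) ^ (-cl g)) (-cl g * (y : ℂ) ^ (-cl g - 1)) y := by
    have h := ((hasDerivAt_id (y : ℂ)).cpow_const (c := -cl g)
      (Or.inl (by simpa using hy))).comp_ofReal
    simpa using h
  have h2 : HasDerivAt (fun y : ℝ => ((p.eval (Real.log y / τ) : ℝ) : ℂ))
      ((p.derivative.eval (Real.log y / τ) * (y⁻¹ / τ) : ℝ) : ℂ) y := by
    have h := (p.hasDerivAt (Real.log y / τ)).comp y ((Real.hasDerivAt_log hy.ne').div_const τ)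
    exact h.ofReal_comp
  have h3 : HasDerivAt (fun y : ℝ => ((Hc (y * Real.exp (-τ)) : ℝ) : ℂ))
      ((deriv Hc (y * Real.exp (-τ)) * Real.exp (-τ) : ℝ) : ℂ) y := by
    have h4 : HasDerivAt Hc (deriv Hc (y * Real.exp (-τ))) (y * Real.exp (-τ)) :=
      (Hc_contDiff.differentiable (by norm_num) _).hasDerivAt
    have h5 : HasDerivAt (fun y : ℝ => y * Real.exp (-τ)) (Real.exp (-τ)) y := by
      simpa using (hasDerivAt_id y).mul_const (Real.exp (-τ))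
    have h := h4.comp y h5
    exact h.ofReal_comp
  have h := ((h1.const_mul (1 / cl g)).mul h2).mul h3
  refine h.congr_deriv ?_
  simp only [Pi.mul_apply]
  unfold kf
  have hc := cl_ne g
  have h6 : (y : ℂ) ^ (-cl g) = (y : ℂ) ^ (-cl g - 1) * y := by
    have := Complex.cpow_add (-cl g - 1) 1 hy0
    rw [Complex.cpow_one] at this
    rw [← this]
    congr 1
    ring
  have hτ' : (τ : ℂ) ≠ 0 := by exact_mod_cast hτ
  push_cast
  rw [h6]
  field_simp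
  ring

theorem kk_eq (g : ℝ) (p : Polynomial ℝ) (δ T : ℝ) {y : ℝ} (hy : 0 < y)
    (hτ : (1 + δ) * T ≠ 0) : kk g p δ T y = kf g p ((1 + δ) * T) y := by
  unfold kk
  rw [(Phi_deriv g p δ T hy hτ).deriv, neg_neg]

theorem cpow_cont (c : ℂ) : ContinuousOn (fun y : ℝ => (y : ℂ) ^ c) (Ioi 0) := by
  intro y hy
  refine ContinuousAt.continuousWithinAt ?_
  have h0 : ContinuousAt (fun y : ℝ => (y : ℂ)) y := Complex.continuous_ofReal.continuousAt
  exact h0.cpow continuousAt_const (Or.inl (by exact_mod_cast mem_Ioi.1 hy))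

theorem poly_cont (p : Polynomial ℝ) (τ : ℝ) :
    ContinuousOn (fun y : ℝ => p.eval (Real.log y / τ)) (Ioi 0) := by
  refine p.continuous.comp_continuousOn ?_
  refine ContinuousOn.div_const ?_ _
  exact Real.continuousOn_log.mono fun y hy => (mem_Ioi.1 hy).ne'

theorem kf_cont (g : ℝ) (p : Polynomial ℝ) (τ : ℝ) : ContinuousOn (kf g p τ) (Ioi 0) := by
  unfold kf
  have h1 : ContinuousOn (fun y : ℝ => ((p.eval (Real.log y / τ) : ℝ) : ℂ)) (Ioi 0) :=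
    Complex.continuous_ofReal.comp_continuousOn (poly_cont p τ)
  have h2 : ContinuousOn (fun y : ℝ => ((p.derivative.eval (Real.log y / τ) / τ : ℝ) : ℂ)) (Ioi 0) :=
    Complex.continuous_ofReal.comp_continuousOn ((poly_cont p.derivative τ).div_const τ)
  have h3 : ContinuousOn (fun y : ℝ => ((Hc (y * Real.exp (-τ)) : ℝ) : ℂ)) (Ioi 0) :=
    (Complex.continuous_ofReal.comp (Hc_contDiff.continuous.comp
      (by fun_prop : Continuous fun y : ℝ => y * Real.exp (-τ)))).continuousOn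
  have h4 : ContinuousOn (fun y : ℝ => ((deriv Hc (y * Real.exp (-τ)) * Real.exp (-τ) : ℝ) : ℂ))
      (Ioi 0) :=
    (Complex.continuous_ofReal.comp ((Hd_cont.comp
      (by fun_prop : Continuous fun y : ℝ => y * Real.exp (-τ))).mul continuous_const)).continuousOn
  exact ((((cpow_cont _).mul h1).mul h3).sub
    (((continuousOn_const.mul (cpow_cont _)).mul h2).mul h3)).sub
    (((continuousOn_const.mul (cpow_cont _)).mul h1).mul h4)

theorem nm1 (g : ℝ) (p : Polynomial ℝ) (δ T : ℝ) (hδ : 0 < δ) (hT : 1 ≤ T) :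
    (∀ y : ℝ, 0 < y → DifferentiableAt ℝ (Phi g p δ T) y) ∧ ContinuousOn (kk g p δ T) (Ioi 0) ∧
    (∀ y : ℝ, 2 * Real.exp ((1 + δ) * T) ≤ y → Phi g p δ T y = 0) ∧
    (∀ y : ℝ, 2 * Real.exp ((1 + δ) * T) < y → kk g p δ T y = 0) ∧
    Phi g p δ T 1 = 1 / cl g * ((p.eval 0 : ℝ) : ℂ) := by
  have hτ0 : 0 < (1 + δ) * T := by positivity
  have hz : ∀ y : ℝ, 2 * Real.exp ((1 + δ) * T) ≤ y → Phi g p δ T y = 0 := by
    intro y hy
    have h1 : 2 ≤ y * Real.exp (-((1 + δ) * T)) := by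
      rw [Real.exp_neg, ← div_eq_mul_inv, le_div_iff₀ (Real.exp_pos _)]
      exact hy
    unfold Phi
    rw [nm_Hc_zero h1]
    simp
  refine ⟨fun y hy => (Phi_deriv g p δ T hy hτ0.ne').differentiableAt, ?_, hz, ?_, ?_⟩
  · exact (kf_cont g p ((1 + δ) * T)).congr fun y hy => kk_eq g p δ T hy hτ0.ne'
  · intro y hy
    have h1 : Phi g p δ T =ᶠ[𝓝 y] fun _ => 0 := by
      filter_upwards [Ioi_mem_nhds hy] with x hx
      exact hz x (le_of_lt hx)
    unfold kk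
    rw [h1.deriv_eq]
    simp
  · unfold Phi
    rw [Real.log_one, zero_div, nm_Hc_one]
    · simp
    · rw [one_mul]
      exact Real.exp_le_one_iff.2 (by linarith)

/-- the main part -/
noncomputable def A1 (g : ℝ) (p : Polynomial ℝ) (τ y : ℝ) : ℂ :=
  (y : ℂ) ^ (-cl g - 1) * ((p.eval (Real.log y / τ) : ℝ) : ℂ)

theorem norm_pow1 (g : ℝ) {y : ℝ} (hy : 0 < y) : ‖(y : ℂ) ^ (-cl g - 1)‖ = y ^ (-(3 / 2) : ℝ) := by
  rw [Complex.norm_cpow_eq_rpow_re_of_pos hy]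
  congr 1
  unfold cl
  simp
  norm_num

theorem norm_pow2 (g : ℝ) {y : ℝ} (hy : 0 < y) : ‖(y : ℂ) ^ (-cl g)‖ = y * y ^ (-(3 / 2) : ℝ) := by
  rw [Complex.norm_cpow_eq_rpow_re_of_pos hy]
  have h1 : (-cl g).re = 1 + -(3 / 2) := by
    unfold cl
    simp
    norm_num
  rw [h1, Real.rpow_add hy, Real.rpow_one]

theorem log_range {τ y : ℝ} (hτ : 1 ≤ τ) (h1 : 1 ≤ y) (h2 : y ≤ 2 * Real.exp τ) :
    Real.log y / τ ∈ Icc (0 : ℝ) 2 := by
  have hτ0 : 0 < τ := by linarith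
  constructor
  · exact div_nonneg (Real.log_nonneg h1) hτ0.le
  · rw [div_le_iff₀ hτ0]
    have h3 : Real.log y ≤ Real.log (2 * Real.exp τ) := Real.log_le_log (by linarith) h2
    rw [Real.log_mul (by norm_num) (Real.exp_pos _).ne', Real.log_exp] at h3
    have := Real.log_two_lt_d9
    linarith

/-- the difference for `y ≤ Y` -/
theorem diff_le (g : ℝ) (p : Polynomial ℝ) {P τ y : ℝ} (hP0 : 0 ≤ P)
    (hP : ∀ y ∈ Icc (0 : ℝ) 2, |p.eval y| ≤ P ∧ |p.derivative.eval y| ≤ P)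
    (hτ : 1 ≤ τ) (h1 : 1 ≤ y) (h2 : y ≤ Real.exp τ) :
    ‖kf g p τ y - A1 g p τ y‖ ≤ ‖1 / cl g‖ * P * (y ^ (-(3 / 2) : ℝ) / τ) := by
  have hy : 0 < y := by linarith
  have hτ0 : 0 < τ := by linarith
  have h3 : y * Real.exp (-τ) ≤ 1 := by
    rw [Real.exp_neg, ← div_eq_mul_inv, div_le_one (Real.exp_pos _)]
    exact h2
  have h4 : kf g p τ y - A1 g p τ y = -(1 / cl g * (y : ℂ) ^ (-cl g - 1) *
      ((p.derivative.eval (Real.log y / τ) / τ : ℝ) : ℂ)) := by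
    unfold kf A1
    rw [nm_Hc_one h3, Hd_zero h3]
    push_cast
    ring
  rw [h4, norm_neg, norm_mul, norm_mul, norm_pow1 g hy, Complex.norm_real, Real.norm_eq_abs,
    abs_div, abs_of_pos hτ0]
  have h5 := (hP _ (log_range hτ h1 (by linarith [Real.exp_pos τ]))).2
  have h6 : 0 ≤ y ^ (-(3 / 2) : ℝ) := by positivity
  calc ‖1 / cl g‖ * y ^ (-(3 / 2) : ℝ) * (|p.derivative.eval (Real.log y / τ)| / τ) ≤
        ‖1 / cl g‖ * y ^ (-(3 / 2) : ℝ) * (P / τ) := by gcongr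
    _ = _ := by ring

/-- the bound for `y ≤ 2 Y` -/
theorem kf_le (g : ℝ) (p : Polynomial ℝ) {P H τ y : ℝ} (hP0 : 0 ≤ P) (hH0 : 0 ≤ H)
    (hP : ∀ y ∈ Icc (0 : ℝ) 2, |p.eval y| ≤ P ∧ |p.derivative.eval y| ≤ P)
    (hH : ∀ y ∈ Icc (0 : ℝ) 2, |deriv Hc y| ≤ H)
    (hτ : 1 ≤ τ) (h1 : 1 ≤ y) (h2 : y ≤ 2 * Real.exp τ) :
    ‖kf g p τ y‖ ≤ (P * (1 + ‖1 / cl g‖ * (1 + 2 * H))) * y ^ (-(3 / 2) : ℝ) := by
  have hy : 0 < y := by linarith
  have hτ0 : 0 < τ := by linarith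
  have hx : y * Real.exp (-τ) ∈ Icc (0 : ℝ) 2 := by
    constructor
    · positivity
    · rw [Real.exp_neg, ← div_eq_mul_inv, div_le_iff₀ (Real.exp_pos _)]
      exact h2
  obtain ⟨h5, h6⟩ := hP _ (log_range hτ h1 h2)
  have h7 := hH _ hx
  have h8 := Hc_nonneg (y * Real.exp (-τ))
  have h9 := Hc_le_one (y * Real.exp (-τ))
  set r := y ^ (-(3 / 2) : ℝ) with hr
  have hr0 : 0 ≤ r := by positivity
  unfold kf
  refine (norm_sub_le _ _).trans ?_
  have t3 : ‖1 / cl g * (y : ℂ) ^ (-cl g) * ((p.eval (Real.log y / τ) : ℝ) : ℂ) *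
    ((deriv Hc (y * Real.exp (-τ)) * Real.exp (-τ) : ℝ) : ℂ)‖ ≤ P * (‖1 / cl g‖ * (2 * H)) * r := by
    rw [norm_mul, norm_mul, norm_mul, norm_pow2 g hy, ← hr, Complex.norm_real, Complex.norm_real,
      Real.norm_eq_abs, Real.norm_eq_abs, abs_mul, abs_of_pos (Real.exp_pos _)]
    calc ‖1 / cl g‖ * (y * r) * |p.eval (Real.log y / τ)| *
          (|deriv Hc (y * Real.exp (-τ))| * Real.exp (-τ)) =
          ‖1 / cl g‖ * r * |p.eval (Real.log y / τ)| *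
          |deriv Hc (y * Real.exp (-τ))| * (y * Real.exp (-τ)) := by ring
      _ ≤ ‖1 / cl g‖ * r * P * H * 2 := by
          have := hx.2
          gcongr
      _ = _ := by ring
  have t12 : ‖(y : ℂ) ^ (-cl g - 1) * ((p.eval (Real.log y / τ) : ℝ) : ℂ) *
        ((Hc (y * Real.exp (-τ)) : ℝ) : ℂ) -
      1 / cl g * (y : ℂ) ^ (-cl g - 1) * ((p.derivative.eval (Real.log y / τ) / τ : ℝ) : ℂ) *
        ((Hc (y * Real.exp (-τ)) : ℝ) : ℂ)‖ ≤ P * r + ‖1 / cl g‖ * P * r := by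
    refine (norm_sub_le _ _).trans ?_
    rw [norm_mul, norm_mul, norm_mul, norm_mul, norm_mul, norm_pow1 g hy, ← hr, Complex.norm_real,
      Complex.norm_real, Complex.norm_real, Real.norm_eq_abs, Real.norm_eq_abs, Real.norm_eq_abs,
      abs_div, abs_of_pos hτ0, abs_of_nonneg h8]
    have h10 : |p.derivative.eval (Real.log y / τ)| / τ ≤ P :=
      (div_le_self (abs_nonneg _) hτ).trans h6
    apply add_le_add
    · calc r * |p.eval (Real.log y / τ)| * Hc (y * Real.exp (-τ)) ≤ r * P * 1 := by gcongr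
        _ = _ := by ring
    · calc ‖1 / cl g‖ * r * (|p.derivative.eval (Real.log y / τ)| / τ) * Hc (y * Real.exp (-τ)) ≤
            ‖1 / cl g‖ * r * P * 1 := by gcongr
        _ = _ := by ring
  refine (add_le_add t12 t3).trans (le_of_eq ?_)
  ring

theorem sq_rpow {y : ℝ} (hy : 0 < y) : (y ^ (-(3 / 2) : ℝ)) ^ 2 * y ^ 2 = y⁻¹ := by
  have h1 : (y ^ (-(3 / 2) : ℝ)) ^ 2 = y ^ (-3 : ℝ) := by
    rw [← Real.rpow_natCast, ← Real.rpow_mul hy.le]
    congr 1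
    norm_num
  have h2 : y ^ (2 : ℕ) = y ^ (2 : ℝ) := by
    rw [← Real.rpow_natCast]
    norm_num
  rw [h1, h2, ← Real.rpow_add hy, ← Real.rpow_neg_one]
  congr 1
  norm_num

theorem sq_add_le' {θ : ℝ} (hθ : 0 < θ) (a e : ℂ) :
    ‖a‖ ^ 2 ≤ (1 + θ) * ‖e‖ ^ 2 + (1 + 1 / θ) * ‖a - e‖ ^ 2 := by
  have h0 : ‖a‖ ≤ ‖e‖ + ‖a - e‖ := by
    have : a = e + (a - e) := by ring
    conv_lhs => rw [this]
    exact norm_add_le _ _
  have h1 : ‖a‖ ^ 2 ≤ (‖e‖ + ‖a - e‖) ^ 2 := pow_le_pow_left₀ (norm_nonneg _) h0 2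
  refine h1.trans ?_
  have h2 : (1 + θ) * ‖e‖ ^ 2 + (1 + 1 / θ) * ‖a - e‖ ^ 2 - (‖e‖ + ‖a - e‖) ^ 2 =
      (θ * ‖e‖ - ‖a - e‖) ^ 2 / θ := by
    field_simp
    ring
  have h3 : 0 ≤ (θ * ‖e‖ - ‖a - e‖) ^ 2 / θ := by positivity
  linarith

theorem int_inv {a b : ℝ} (ha : 0 < a) (hab : a ≤ b) (c : ℝ) :
    IntervalIntegrable (fun y : ℝ => c * y⁻¹) volume a b ∧
    ∫ y in a..b, c * y⁻¹ = c * Real.log (b / a) := by
  have hb : 0 < b := lt_of_lt_of_le ha hab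
  constructor
  · apply ContinuousOn.intervalIntegrable
    rw [uIcc_of_le hab]
    refine continuousOn_const.mul (continuousOn_inv₀.mono fun y hy => ?_)
    have : 0 < y := lt_of_lt_of_le ha hy.1
    simpa using this.ne'
  · rw [intervalIntegral.integral_const_mul, integral_inv_of_pos ha hb]

theorem t_NM : S_NM := by
  refine ⟨nm1, ?_⟩
  intro S p w δ η hδ hη
  obtain ⟨H, hH0, hH⟩ := Hd_bdd
  choose P hP0 hP using fun g => poly_bdd (p g)
  set D : ℝ := ∑ g ∈ S, ‖w g‖ ^ 2 * (∫ u in (0 : ℝ)..1, (p g).eval u ^ 2) with hD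
  have hD0 : 0 ≤ D := Finset.sum_nonneg fun g _ => mul_nonneg (sq_nonneg _)
    (intervalIntegral.integral_nonneg zero_le_one fun u _ => sq_nonneg _)
  set C1 : ℝ := ∑ g ∈ S, ∑ g' ∈ S, ‖w g‖ * ‖w g'‖ * (Pool.Agent.Q210.BD.BB (p g * p g') / |g - g'|)
    with hC1
  set K1 : ℝ := ∑ g ∈ S, ‖w g‖ * (‖1 / cl g‖ * P g) with hK1
  set K2 : ℝ := ∑ g ∈ S, ‖w g‖ * (P g * (1 + ‖1 / cl g‖ * (1 + 2 * H))) with hK2
  have hK10 : 0 ≤ K1 := Finset.sum_nonneg fun g _ => by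
    have := hP0 g
    positivity
  have hK20 : 0 ≤ K2 := Finset.sum_nonneg fun g _ => by
    have := hP0 g
    positivity
  set θ : ℝ := η / (2 * ((1 + δ) * (D + 1))) with hθ
  have hθ0 : 0 < θ := by positivity
  have hθD : θ * ((1 + δ) * D) ≤ η / 2 := by
    have h1 : θ * ((1 + δ) * (D + 1)) = η / 2 := by
      rw [hθ]
      field_simp
    have h2 : θ * ((1 + δ) * D) ≤ θ * ((1 + δ) * (D + 1)) :=
      mul_le_mul_of_nonneg_left (mul_le_mul_of_nonneg_left (by linarith) (by positivity)) hθ0.le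
    linarith
  set C2 : ℝ := (1 + θ) * C1 + (1 + 1 / θ) * K1 ^ 2 + K2 ^ 2 with hC2
  filter_upwards [eventually_ge_atTop (max 1 (2 * C2 / η))] with T hT
  have hT1 : 1 ≤ T := (le_max_left _ _).trans hT
  have hT2 : C2 ≤ T * (η / 2) := by
    have := (le_max_right _ _).trans hT
    rw [div_le_iff₀ hη] at this
    linarith
  set τ := (1 + δ) * T with hτd
  have hτ1 : 1 ≤ τ := by nlinarith
  have hτ0 : 0 < τ := by linarith
  set Y := Real.exp τ with hY
  have hY1 : 1 ≤ Y := Real.one_le_exp hτ0.le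
  have hY0 : 0 < Y := by linarith
  set f : ℝ → ℝ := fun y => ‖∑ g ∈ S, w g * kk g (p g) δ T y‖ ^ 2 * y ^ 2 with hf
  have hfe : ∀ y : ℝ, 0 < y → f y = ‖∑ g ∈ S, w g * kf g (p g) τ y‖ ^ 2 * y ^ 2 := by
    intro y hy
    simp only [hf]
    congr 3
    exact Finset.sum_congr rfl fun g _ => by rw [kk_eq g (p g) δ T hy hτ0.ne']
  have hfc : ContinuousOn f (Ioi 0) := by
    refine ContinuousOn.mul (ContinuousOn.pow (ContinuousOn.norm ?_) 2) (by fun_prop)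
    exact continuousOn_finsetSum _ fun g _ =>
      continuousOn_const.mul (nm1 g (p g) δ T hδ hT1).2.1
  have hfz : ∀ y : ℝ, 2 * Y < y → f y = 0 := by
    intro y hy
    simp only [hf]
    have : ∑ g ∈ S, w g * kk g (p g) δ T y = 0 := Finset.sum_eq_zero fun g _ => by
      rw [(nm1 g (p g) δ T hδ hT1).2.2.2.1 y hy, mul_zero]
    rw [this]
    simp
  have hab : (1 : ℝ) ≤ 2 * Y := by linarith
  have hii : ∀ a b : ℝ, 1 ≤ a → a ≤ b → IntervalIntegrable f volume a b := by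
    intro a b h1 h2
    apply ContinuousOn.intervalIntegrable
    rw [uIcc_of_le h2]
    exact hfc.mono fun y hy => lt_of_lt_of_le one_pos (h1.trans hy.1)
  have hion : IntegrableOn f (Ioc 1 (2 * Y)) :=
    (intervalIntegrable_iff_integrableOn_Ioc_of_le hab).1 (hii 1 (2 * Y) le_rfl hab)
  have hion2 : IntegrableOn f (Ioi (2 * Y)) := by
    refine IntegrableOn.congr_fun (f := fun _ => (0 : ℝ)) integrableOn_zero ?_ measurableSet_Ioi
    intro y hy
    exact (hfz y hy).symm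
  have hu : Ioi (1 : ℝ) = Ioc 1 (2 * Y) ∪ Ioi (2 * Y) := (Ioc_union_Ioi_eq_Ioi hab).symm
  constructor
  · rw [hu]
    exact hion.union hion2
  -- the two parts
  have e1 : ∫ y in Ioi (1 : ℝ), f y = (∫ y in (1 : ℝ)..Y, f y) + ∫ y in Y..(2 * Y), f y := by
    rw [hu, setIntegral_union (Ioc_disjoint_Ioi le_rfl) measurableSet_Ioi hion hion2,
      setIntegral_congr_fun measurableSet_Ioi (fun y hy => hfz y hy), integral_zero, add_zero,
      ← intervalIntegral.integral_of_le hab,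
      intervalIntegral.integral_add_adjacent_intervals (hii 1 Y le_rfl hY1)
        (hii Y (2 * Y) hY1 (by linarith))]
  have hGGc : IntervalIntegrable (Pool.Agent.Q210.BD.GG S p w τ) volume 1 Y := by
    apply ContinuousOn.intervalIntegrable
    rw [uIcc_of_le hY1]
    exact (Pool.Agent.Q210.BD.GG_cont S p w τ).mono fun y hy => lt_of_lt_of_le one_pos hy.1
  obtain ⟨i1, i2⟩ := int_inv one_pos hY1 ((1 + 1 / θ) * (K1 ^ 2 / τ ^ 2))
  obtain ⟨i3, i4⟩ := int_inv hY0 (show Y ≤ 2 * Y by linarith) (K2 ^ 2)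
  have b1 : ∫ y in (1 : ℝ)..Y, f y ≤ (1 + θ) * (τ * D + C1) + (1 + 1 / θ) * K1 ^ 2 := by
    have h1 : ∫ y in (1 : ℝ)..Y, f y ≤ ∫ y in (1 : ℝ)..Y,
        ((1 + θ) * Pool.Agent.Q210.BD.GG S p w τ y + (1 + 1 / θ) * (K1 ^ 2 / τ ^ 2) * y⁻¹) := by
      apply intervalIntegral.integral_mono_on hY1 (hii 1 Y le_rfl hY1) ((hGGc.const_mul _).add i1)
      intro y hy
      have hy0 : 0 < y := by linarith [hy.1]
      rw [hfe y hy0]
      have h2 := sq_add_le' hθ0 (∑ g ∈ S, w g * kf g (p g) τ y) (∑ g ∈ S, w g * A1 g (p g) τ y)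
      have h3 : ‖∑ g ∈ S, w g * kf g (p g) τ y - ∑ g ∈ S, w g * A1 g (p g) τ y‖ ≤
          K1 * (y ^ (-(3 / 2) : ℝ) / τ) := by
        rw [← Finset.sum_sub_distrib, hK1, Finset.sum_mul]
        refine (norm_sum_le _ _).trans (Finset.sum_le_sum fun g _ => ?_)
        rw [← mul_sub, norm_mul, mul_assoc]
        exact mul_le_mul_of_nonneg_left (diff_le g (p g) (hP0 g) (hP g) hτ1 hy.1 hy.2)
          (norm_nonneg _)
      have h4 : ‖∑ g ∈ S, w g * kf g (p g) τ y - ∑ g ∈ S, w g * A1 g (p g) τ y‖ ^ 2 * y ^ 2 ≤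
          K1 ^ 2 / τ ^ 2 * y⁻¹ := by
        calc ‖∑ g ∈ S, w g * kf g (p g) τ y - ∑ g ∈ S, w g * A1 g (p g) τ y‖ ^ 2 * y ^ 2 ≤
              (K1 * (y ^ (-(3 / 2) : ℝ) / τ)) ^ 2 * y ^ 2 := by gcongr
          _ = K1 ^ 2 / τ ^ 2 * ((y ^ (-(3 / 2) : ℝ)) ^ 2 * y ^ 2) := by
              field_simp
          _ = _ := by rw [sq_rpow hy0]
      have h5 : Pool.Agent.Q210.BD.GG S p w τ y = ‖∑ g ∈ S, w g * A1 g (p g) τ y‖ ^ 2 * y ^ 2 := rfl
      rw [h5]
      have h6 := mul_le_mul_of_nonneg_right h2 (sq_nonneg y)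
      have h7 : 0 ≤ 1 + 1 / θ := by positivity
      have h8 := mul_le_mul_of_nonneg_left h4 h7
      linarith
    refine h1.trans ?_
    rw [intervalIntegral.integral_add (hGGc.const_mul _) i1, i2,
      intervalIntegral.integral_const_mul, Pool.Agent.Q210.BD.change S p w hτ0]
    have h2 := Pool.Agent.Q210.BD.norm_le S p w hτ0
    rw [← hD, ← hC1] at h2
    rw [div_one, hY, Real.log_exp]
    have h3 : (1 + 1 / θ) * (K1 ^ 2 / τ ^ 2) * τ ≤ (1 + 1 / θ) * K1 ^ 2 := by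
      have h4 : (1 + 1 / θ) * (K1 ^ 2 / τ ^ 2) * τ = (1 + 1 / θ) * (K1 ^ 2 / τ) := by
        field_simp
      rw [h4]
      apply mul_le_mul_of_nonneg_left _ (by positivity)
      exact div_le_self (by positivity) hτ1
    have h5 : (1 + θ) * (τ * ∫ u in (0 : ℝ)..1, ‖Pool.Agent.Q210.BD.UU S p w τ u‖ ^ 2) ≤
        (1 + θ) * (τ * D + C1) := mul_le_mul_of_nonneg_left h2 (by positivity)
    linarith
  have b2 : ∫ y in Y..(2 * Y), f y ≤ K2 ^ 2 := by
    have h1 : ∫ y in Y..(2 * Y), f y ≤ ∫ y in Y..(2 * Y), K2 ^ 2 * y⁻¹ := by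
      apply intervalIntegral.integral_mono_on (by linarith) (hii Y (2 * Y) hY1 (by linarith)) i3
      intro y hy
      have hy1 : 1 ≤ y := hY1.trans hy.1
      have hy0 : 0 < y := by linarith
      rw [hfe y hy0]
      have h3 : ‖∑ g ∈ S, w g * kf g (p g) τ y‖ ≤ K2 * y ^ (-(3 / 2) : ℝ) := by
        rw [hK2, Finset.sum_mul]
        refine (norm_sum_le _ _).trans (Finset.sum_le_sum fun g _ => ?_)
        rw [norm_mul, mul_assoc]
        exact mul_le_mul_of_nonneg_left (kf_le g (p g) (hP0 g) hH0 (hP g) hH hτ1 hy1 hy.2)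
          (norm_nonneg _)
      calc ‖∑ g ∈ S, w g * kf g (p g) τ y‖ ^ 2 * y ^ 2 ≤
            (K2 * y ^ (-(3 / 2) : ℝ)) ^ 2 * y ^ 2 := by gcongr
        _ = K2 ^ 2 * ((y ^ (-(3 / 2) : ℝ)) ^ 2 * y ^ 2) := by ring
        _ = _ := by rw [sq_rpow hy0]
    refine h1.trans ?_
    rw [i4]
    have h2 : 2 * Y / Y = 2 := by
      field_simp
    rw [h2]
    have := Real.log_two_lt_d9
    nlinarith [sq_nonneg K2]
  rw [e1]
  have h9 : (1 + θ) * (τ * D + C1) = T * ((1 + δ) * D) + T * (θ * ((1 + δ) * D)) + (1 + θ) * C1 := by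
    rw [hτd]
    ring
  have h10 : T * (θ * ((1 + δ) * D)) ≤ T * (η / 2) := mul_le_mul_of_nonneg_left hθD (by linarith)
  have h11 : T * ((1 + δ) * D + η) = T * ((1 + δ) * D) + T * (η / 2) + T * (η / 2) := by ring
  rw [h11]
  linarith

end Pool.Agent.Q298.GB
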