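import Pool.Agent.Q298.GB.Base

/-! Project GB (helper286): the pairing of `CC` with the test functions. -/

set_option autoImplicit false

namespace Pool.Agent.Q298.GB

open Complex MeasureTheory Filter Topology Set
open Pool.Agent.Q286.BD (cl)
open Pool.Agent.Q286.GB

/-- sums over factorisations -/
theorem sum_anti (J : ℕ) (F : ℕ → ℕ → ℂ) :
    ∑ j ∈ Finset.Icc 1 J, ∑ p ∈ j.divisorsAntidiagonal, F p.1 p.2 =
      ∑ q ∈ (Finset.Icc 1 J ×ˢ Finset.Icc 1 J).filter (fun q => q.1 * q.2 ≤ J), F q.1 q.2 := by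
  rw [Finset.sum_sigma']
  refine Finset.sum_nbij' (fun x => x.2) (fun q => ⟨q.1 * q.2, q⟩) ?_ ?_ ?_ ?_ ?_
  · rintro ⟨j, p⟩ hx
    simp only [Finset.mem_sigma, Finset.mem_Icc, Nat.mem_divisorsAntidiagonal] at hx
    obtain ⟨⟨h1, h2⟩, h3, h4⟩ := hx
    have hp1 : 1 ≤ p.1 := Nat.pos_of_ne_zero fun h => h4 (by rw [← h3, h, zero_mul])
    have hp2 : 1 ≤ p.2 := Nat.pos_of_ne_zero fun h => h4 (by rw [← h3, h, mul_zero])
    simp only [Finset.mem_filter, Finset.mem_product, Finset.mem_Icc]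
    refine ⟨⟨⟨hp1, ?_⟩, hp2, ?_⟩, by omega⟩
    · have : p.1 ≤ p.1 * p.2 := Nat.le_mul_of_pos_right _ hp2
      omega
    · have : p.2 ≤ p.1 * p.2 := Nat.le_mul_of_pos_left _ hp1
      omega
  · rintro ⟨n, m⟩ hx
    simp only [Finset.mem_filter, Finset.mem_product, Finset.mem_Icc] at hx
    simp only [Finset.mem_sigma, Finset.mem_Icc, Nat.mem_divisorsAntidiagonal]
    have h1 : 1 ≤ n * m := Nat.mul_pos hx.1.1.1 hx.1.2.1
    exact ⟨⟨h1, hx.2⟩, trivial, by omega⟩
  · rintro ⟨j, p⟩ hx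
    simp only [Finset.mem_sigma, Finset.mem_Icc, Nat.mem_divisorsAntidiagonal] at hx
    obtain ⟨_, h3, _⟩ := hx
    subst h3
    rfl
  · intro q _
    rfl
  · intro x _
    rfl

theorem sum_cc (O : LFn) (N : ℕ) (a : ℕ → ℂ) (J : ℕ) (P : ℝ → ℂ)
    (hP : ∀ k : ℕ, J < k → P k = 0) :
    ∑ j ∈ Finset.Icc 1 J, cc O N a j * P j =
      ∑ n ∈ Finset.Icc 1 N, a n * ∑ m ∈ Finset.Icc 1 J, O.lam m * P ((n : ℝ) * m) := by
  set G : ℕ → ℕ → ℂ := fun n m => (if n ≤ N then a n else 0) * O.lam m * P ((n : ℝ) * m) with hG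
  have h1 : ∑ j ∈ Finset.Icc 1 J, cc O N a j * P j =
      ∑ j ∈ Finset.Icc 1 J, ∑ p ∈ j.divisorsAntidiagonal, G p.1 p.2 := by
    refine Finset.sum_congr rfl fun j _ => ?_
    unfold cc
    rw [Finset.sum_mul]
    refine Finset.sum_congr rfl fun p hp => ?_
    have hp1 := (Nat.mem_divisorsAntidiagonal.1 hp).1
    simp only [hG]
    rw [← hp1]
    push_cast
    ring
  have h2 : ∑ n ∈ Finset.Icc 1 N, a n * ∑ m ∈ Finset.Icc 1 J, O.lam m * P ((n : ℝ) * m) =
      ∑ q ∈ Finset.Icc 1 N ×ˢ Finset.Icc 1 J, G q.1 q.2 := by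
    rw [Finset.sum_product]
    refine Finset.sum_congr rfl fun n hn => ?_
    rw [Finset.mul_sum]
    refine Finset.sum_congr rfl fun m _ => ?_
    simp only [hG]
    rw [if_pos (Finset.mem_Icc.1 hn).2]
    ring
  rw [h1, h2, sum_anti]
  have h3 : ∑ q ∈ (Finset.Icc 1 J ×ˢ Finset.Icc 1 J).filter (fun q => q.1 * q.2 ≤ J), G q.1 q.2 =
      ∑ q ∈ Finset.Icc 1 (max N J) ×ˢ Finset.Icc 1 J, G q.1 q.2 := by
    apply Finset.sum_subset
    · intro q hq
      simp only [Finset.mem_filter, Finset.mem_product, Finset.mem_Icc] at hq ⊢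
      have := le_max_right N J
      omega
    · intro q hq hq'
      simp only [Finset.mem_filter, Finset.mem_product, Finset.mem_Icc] at hq hq'
      have h4 : J < q.1 * q.2 := by
        by_contra h5
        apply hq'
        have h6 : q.1 ≤ q.1 * q.2 := Nat.le_mul_of_pos_right _ hq.2.1
        exact ⟨⟨⟨hq.1.1, by omega⟩, hq.2⟩, by omega⟩
      simp only [hG]
      have h5 : P ((q.1 : ℝ) * q.2) = 0 := by
        have := hP (q.1 * q.2) h4
        push_cast at this
        exact this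
      rw [h5, mul_zero]
  have h4 : ∑ q ∈ Finset.Icc 1 N ×ˢ Finset.Icc 1 J, G q.1 q.2 =
      ∑ q ∈ Finset.Icc 1 (max N J) ×ˢ Finset.Icc 1 J, G q.1 q.2 := by
    apply Finset.sum_subset
    · intro q hq
      simp only [Finset.mem_product, Finset.mem_Icc] at hq ⊢
      have := le_max_left N J
      omega
    · intro q hq hq'
      simp only [Finset.mem_product, Finset.mem_Icc] at hq hq'
      simp only [hG]
      rw [if_neg (by omega), zero_mul, zero_mul]
  rw [h3, h4]

/-- the integral of a test function -/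
theorem kk_int {P K : ℝ → ℂ} {Y : ℝ} (hd : ∀ y : ℝ, 0 < y → HasDerivAt P (-K y) y)
    (hc : ContinuousOn K (Ioi 0)) (hP : ∀ y : ℝ, Y ≤ y → P y = 0) (hK : ∀ y : ℝ, Y < y → K y = 0)
    (c : ℝ) (hc0 : 0 < c) : IntegrableOn K (Ioi c) ∧ ∫ y in Ioi c, K y = P c := by
  set b := max c Y with hb
  have hcb : c ≤ b := le_max_left _ _
  have hYb : Y ≤ b := le_max_right _ _
  have hcont : ContinuousOn K (uIcc c b) := by
    rw [uIcc_of_le hcb]
    exact hc.mono fun y hy => lt_of_lt_of_le hc0 hy.1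
  have hii : IntervalIntegrable K volume c b := hcont.intervalIntegrable
  have h1 : ∫ y in c..b, K y = P c - P b := by
    have h2 : ∫ y in c..b, -K y = P b - P c := by
      apply intervalIntegral.integral_eq_sub_of_hasDerivAt
      · intro y hy
        rw [uIcc_of_le hcb] at hy
        exact hd y (lt_of_lt_of_le hc0 hy.1)
      · exact hii.neg
    rw [intervalIntegral.integral_neg] at h2
    linear_combination -h2
  have hion : IntegrableOn K (Ioc c b) := (intervalIntegrable_iff_integrableOn_Ioc_of_le hcb).1 hii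
  have hz : ∀ y ∈ Ioi b, K y = 0 := fun y hy => hK y (lt_of_le_of_lt hYb hy)
  have hion2 : IntegrableOn K (Ioi b) := by
    refine IntegrableOn.congr_fun (f := fun _ => (0 : ℂ)) integrableOn_zero ?_ measurableSet_Ioi
    intro y hy
    exact (hz y hy).symm
  have hu : Ioi c = Ioc c b ∪ Ioi b := (Ioc_union_Ioi_eq_Ioi hcb).symm
  constructor
  · rw [hu]
    exact hion.union hion2
  · rw [hu, setIntegral_union (Ioc_disjoint_Ioi le_rfl) measurableSet_Ioi hion hion2,
      setIntegral_congr_fun measurableSet_Ioi hz, integral_zero, add_zero,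
      ← intervalIntegral.integral_of_le hcb, h1, hP b hYb, sub_zero]

/-- the pairing -/
theorem pairG (O : LFn) (N : ℕ) (a : ℕ → ℂ) {P K : ℝ → ℂ} {Y : ℝ}
    (hY : 0 ≤ Y)
    (hd : ∀ y : ℝ, 0 < y → HasDerivAt P (-K y) y)
    (hc : ContinuousOn K (Ioi 0)) (hP : ∀ y : ℝ, Y ≤ y → P y = 0) (hK : ∀ y : ℝ, Y < y → K y = 0) :
    IntegrableOn (fun y => CC O N a y * K y) (Ioi 1) ∧
    ∫ y in Ioi (1 : ℝ), CC O N a y * K y = P 1 -
      ∑ n ∈ Finset.Icc 1 N, a n * ∑ m ∈ Finset.Icc 1 ⌊Y⌋₊, O.lam m * P ((n : ℝ) * m) := by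
  have hk := fun c hc0 => kk_int hd hc hP hK c hc0
  have e : ∀ y ∈ Ioi (1 : ℝ), CC O N a y * K y = K y -
      ∑ j ∈ Finset.Icc 1 ⌊Y⌋₊, cc O N a j * (Ici (j : ℝ)).indicator K y := by
    intro y hy
    have hy1 : (1 : ℝ) < y := hy
    rcases lt_or_ge Y y with h | h
    · rw [hK y h, mul_zero, zero_sub, zero_eq_neg]
      refine Finset.sum_eq_zero fun j _ => ?_
      rw [indicator_apply, hK y h, ite_self, mul_zero]
    · unfold CC
      rw [sub_mul, one_mul, Finset.sum_mul]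
      congr 1
      have h1 : ∑ j ∈ Finset.Icc 1 ⌊y⌋₊, cc O N a j * K y =
          ∑ j ∈ Finset.Icc 1 ⌊y⌋₊, cc O N a j * (Ici (j : ℝ)).indicator K y := by
        refine Finset.sum_congr rfl fun j hj => ?_
        rw [indicator_of_mem]
        exact (Nat.le_floor_iff (by linarith)).1 (Finset.mem_Icc.1 hj).2
      rw [h1]
      apply Finset.sum_subset
      · exact Finset.Icc_subset_Icc le_rfl (Nat.floor_mono h)
      · intro j hj hj'
        rw [Finset.mem_Icc] at hj hj'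
        rw [indicator_of_notMem, mul_zero]
        intro h2
        apply hj'
        exact ⟨hj.1, (Nat.le_floor_iff (by linarith)).2 h2⟩
  have hj : ∀ j ∈ Finset.Icc 1 ⌊Y⌋₊, IntegrableOn ((Ici (j : ℝ)).indicator K) (Ioi 1) ∧
      ∫ y in Ioi (1 : ℝ), (Ici (j : ℝ)).indicator K y = P j := by
    intro j hj
    rw [Finset.mem_Icc] at hj
    have hj1 : (1 : ℝ) ≤ j := by exact_mod_cast hj.1
    have h1 := hk (j : ℝ) (by linarith)
    constructor
    · have h2 : IntegrableOn K (Ici (j : ℝ)) :=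
        integrableOn_Ici_iff_integrableOn_Ioi (by simp) |>.2 h1.1
      exact ((integrable_indicator_iff measurableSet_Ici).2 h2).integrableOn
    · rw [setIntegral_indicator measurableSet_Ici]
      rcases eq_or_lt_of_le hj1 with h3 | h3
      · have h4 : Ioi (1 : ℝ) ∩ Ici (j : ℝ) = Ioi (j : ℝ) := by
          rw [← h3]
          exact inter_eq_left.2 Ioi_subset_Ici_self
        rw [h4]
        exact h1.2
      · have h4 : Ioi (1 : ℝ) ∩ Ici (j : ℝ) = Ici (j : ℝ) :=
          inter_eq_right.2 fun y (hy : (j : ℝ) ≤ y) => show 1 < y from lt_of_lt_of_le h3 hy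
        rw [h4, integral_Ici_eq_integral_Ioi]
        exact h1.2
  have h1 := hk 1 one_pos
  have h2 : IntegrableOn (fun y : ℝ => ∑ j ∈ Finset.Icc 1 ⌊Y⌋₊,
      cc O N a j * (Ici (j : ℝ)).indicator K y) (Ioi 1) :=
    integrable_finsetSum _ fun j hj' => (hj j hj').1.const_mul _
  constructor
  · exact (h1.1.sub h2).congr_fun (fun y hy => (e y hy).symm) measurableSet_Ioi
  · rw [setIntegral_congr_fun measurableSet_Ioi e, integral_sub h1.1 h2, h1.2,
      integral_finsetSum _ fun j hj' => (hj j hj').1.const_mul _]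
    congr 1
    have h3 : ∀ j ∈ Finset.Icc 1 ⌊Y⌋₊,
        ∫ y in Ioi (1 : ℝ), cc O N a j * (Ici (j : ℝ)).indicator K y = cc O N a j * P j := by
      intro j hj'
      rw [integral_const_mul, (hj j hj').2]
    rw [Finset.sum_congr rfl h3]
    apply sum_cc
    intro k hk'
    apply hP
    exact ((Nat.floor_lt hY).1 hk').le

end Pool.Agent.Q298.GB
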