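import Pool.Agent.Q298.GB.Pair
import Pool.Agent.Q202.BD.Low

/-! Project GB (helper286), job LOW: Burnol's lower bound for any L-function. -/

set_option autoImplicit false

namespace Pool.Agent.Q298.GB

open Complex MeasureTheory Filter Topology Set
open Pool.Agent.Q286.BD (cl)
open Pool.Agent.Q286.GB

/-- Cauchy-Schwarz for the pairing -/
theorem pairG_le (O : LFn) (N : ℕ) (a : ℕ → ℂ) {K : ℝ → ℂ}
    (hJ : IntegrableOn (fun y : ℝ => ‖CC O N a y‖ ^ 2 / y ^ 2) (Ioi 1))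
    (hK2 : IntegrableOn (fun y : ℝ => ‖K y‖ ^ 2 * y ^ 2) (Ioi 1))
    (hCK : IntegrableOn (fun y => CC O N a y * K y) (Ioi 1)) :
    ‖∫ y in Ioi (1 : ℝ), CC O N a y * K y‖ ^ 2 ≤
      JE O N a * ∫ y in Ioi (1 : ℝ), ‖K y‖ ^ 2 * y ^ 2 := by
  have e : ∀ y ∈ Ioi (1 : ℝ), ‖CC O N a y * K y‖ = (‖CC O N a y‖ / y) * (‖K y‖ * y) := by
    intro y hy
    have hy0 : (0 : ℝ) < y := lt_trans one_pos hy
    rw [norm_mul]
    field_simp
  have h2 : ‖∫ y in Ioi (1 : ℝ), CC O N a y * K y‖ ≤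
      ∫ y in Ioi (1 : ℝ), (‖CC O N a y‖ / y) * (‖K y‖ * y) := by
    refine (norm_integral_le_integral_norm _).trans (le_of_eq ?_)
    exact setIntegral_congr_fun measurableSet_Ioi e
  have h3 := Pool.Agent.Q202.BD.cauchy (s := Ioi 1) (fun y => ‖CC O N a y‖ / y)
    (fun y => ‖K y‖ * y)
    (by simpa only [div_pow] using hJ) (by simpa only [mul_pow] using hK2)
    (IntegrableOn.congr_fun hCK.norm e measurableSet_Ioi)
  simp only [div_pow, mul_pow] at h3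
  exact (pow_le_pow_left₀ (norm_nonneg _) h2 2).trans h3

theorem t_LOW (h0 : Pool.Agent.Q286.BD.S_leg) (h1 : S_NO) (h2 : S_NM) (h3 : S_CO) : S_LOW := by
  intro O S hS η hη
  obtain ⟨M, hMd⟩ : ∃ M : ℝ, M = ∑ g ∈ S, (mz O g : ℝ) ^ 2 / (1 / 4 + g ^ 2) := ⟨_, rfl⟩
  rw [← hMd]
  have hM0 : 0 ≤ M := by
    rw [hMd]
    exact Finset.sum_nonneg fun g _ => by positivity
  rcases le_or_gt M η with hM | hM
  · filter_upwards [eventually_ge_atTop 1] with N hN a _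
    have h4 : (1 : ℝ) ≤ N := by exact_mod_cast hN
    have h5 : 0 ≤ JE O N a * Real.log N := mul_nonneg (JE_nonneg O N a) (Real.log_nonneg h4)
    unfold JE at h5
    linarith
  have hp : ∀ g : ℝ, ∃ p : Polynomial ℝ, p.degree < mz O g ∧
      p.eval 0 = (mz O g : ℝ) ^ 2 ∧ ∫ u in (0 : ℝ)..1, p.eval u ^ 2 = (mz O g : ℝ) ^ 2 := by
    intro g
    rcases Nat.eq_zero_or_pos (mz O g) with h | h
    · refine ⟨0, ?_, by simp [h], by simp [h]⟩
      rw [h, Polynomial.degree_zero]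
      exact WithBot.bot_lt_coe _
    · obtain ⟨p, hp1, hp2, hp3⟩ := h0 _ h
      refine ⟨p, hp1, hp2, ?_⟩
      have h4 := hp3 p hp1
      rw [hp2] at h4
      rw [← h4]
      simp only [sq]
  choose p hpd hp0 hpi using hp
  obtain ⟨δ, hδd⟩ : ∃ δ : ℝ, δ = min (1 / 4) (η / (16 * (M + 1))) := ⟨_, rfl⟩
  have hδ0 : 0 < δ := by
    rw [hδd]
    exact lt_min (by norm_num) (by positivity)
  have hδ1 : δ ≤ 1 / 4 := by
    rw [hδd]
    exact min_le_left _ _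
  have hδ2 : 2 * δ * M ≤ η / 8 := by
    have h4 : δ ≤ η / (16 * (M + 1)) := by
      rw [hδd]
      exact min_le_right _ _
    rw [le_div_iff₀ (by positivity)] at h4
    nlinarith
  have hT1 : ∀ g : ℝ, ∃ C : ℝ, 0 < C ∧ (g ∈ S → ∀ T : ℝ, 1 ≤ T → ∀ n : ℕ, 1 ≤ n →
      (n : ℝ) ≤ Real.exp T → ‖∑ m ∈ Finset.Icc 1 ⌊2 * Real.exp ((1 + δ) * T)⌋₊,
        O.lam m * Phi g (p g) δ T (n * m)‖ ≤ C * Real.exp (-(6 * T))) := by
    intro g
    by_cases hg : g ∈ S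
    · obtain ⟨C, hC, hC'⟩ := h1 O g (p g) (hS g hg) (hpd g) δ 6 hδ0
      exact ⟨C, hC, fun _ => hC'⟩
    · exact ⟨1, one_pos, fun h => absurd h hg⟩
  choose C hC0 hC using hT1
  obtain ⟨w, hwd⟩ : ∃ w : ℝ → ℂ, w = fun g => 1 / (starRingEnd ℂ) (cl g) := ⟨_, rfl⟩
  have hcl : ∀ g : ℝ, Complex.normSq (cl g) = 1 / 4 + g ^ 2 := by
    intro g
    unfold cl
    rw [Complex.normSq_apply]
    simp
    ring
  have hw1 : ∀ g : ℝ, w g * (((p g).eval 0 : ℝ) : ℂ) / cl g =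
      (((mz O g : ℝ) ^ 2 / (1 / 4 + g ^ 2) : ℝ) : ℂ) := by
    intro g
    have e1 : (starRingEnd ℂ) (cl g) * cl g = ((1 / 4 + g ^ 2 : ℝ) : ℂ) := by
      rw [mul_comm, Complex.mul_conj, hcl]
    rw [hwd, hp0, Complex.ofReal_div, ← e1]
    change 1 / (starRingEnd ℂ) (cl g) * _ / cl g = _
    rw [one_div_mul_eq_div, div_div]
  have hw2 : ∀ g : ℝ, ‖w g‖ ^ 2 = 1 / (1 / 4 + g ^ 2) := by
    intro g
    rw [hwd]
    change ‖1 / (starRingEnd ℂ) (cl g)‖ ^ 2 = _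
    rw [norm_div, norm_one, RCLike.norm_conj, div_pow, one_pow, Complex.sq_norm, hcl]
  obtain ⟨C3, hC3, h3'⟩ := h3 O
  obtain ⟨W, hWd⟩ : ∃ W : ℝ, W = ∑ g ∈ S, ‖w g‖ * C g := ⟨_, rfl⟩
  have hW0 : 0 ≤ W := by
    rw [hWd]
    exact Finset.sum_nonneg fun g _ => mul_nonneg (norm_nonneg _) (hC0 g).le
  have hlog : Tendsto (fun N : ℕ => Real.log N) atTop atTop :=
    Real.tendsto_log_atTop.comp tendsto_natCast_atTop_atTop
  have hT2 := h2.2 S p w δ (η / 8) hδ0 (by positivity)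
  have hsm : ∀ᶠ L : ℝ in atTop, W / L + W * (C3 * 2) * Real.exp (-(2 * L)) ≤ η / 4 := by
    have t1 : Tendsto (fun L : ℝ => W / L) atTop (nhds 0) := tendsto_const_nhds.div_atTop tendsto_id
    have t2 : Tendsto (fun L : ℝ => Real.exp (-(2 * L))) atTop (nhds 0) :=
      Real.tendsto_exp_neg_atTop_nhds_zero.comp (tendsto_id.const_mul_atTop (by norm_num))
    have t3 := t1.add (t2.const_mul (W * (C3 * 2)))
    rw [mul_zero, add_zero] at t3
    exact t3.eventually_le_const (by positivity)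
  filter_upwards [hlog.eventually hT2, hlog.eventually hsm,
    hlog.eventually (eventually_ge_atTop (max 1 M)), eventually_ge_atTop 1]
    with N k1 k3 k4 hN a ha
  obtain ⟨L, hL⟩ : ∃ L : ℝ, L = Real.log N := ⟨_, rfl⟩
  rw [← hL] at k1 k3 k4 ⊢
  have hN' : (1 : ℝ) ≤ N := by exact_mod_cast hN
  have hexp : Real.exp L = N := by rw [hL, Real.exp_log (by linarith)]
  have hL1 : 1 ≤ L := (le_max_left _ _).trans k4
  have hLM : M ≤ L := (le_max_right _ _).trans k4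
  obtain ⟨r1, r2⟩ := k1
  obtain ⟨k, hk⟩ : ∃ k : ℝ → ℂ, k = fun y => ∑ g ∈ S, w g * kk g (p g) δ L y := ⟨_, rfl⟩
  have hsum : ∑ g ∈ S, ‖w g‖ ^ 2 * (∫ u in (0 : ℝ)..1, (p g).eval u ^ 2) = M := by
    rw [hMd]
    refine Finset.sum_congr rfl fun g _ => ?_
    rw [hw2, hpi]
    ring
  rw [hsum] at r2
  set Y := 2 * Real.exp ((1 + δ) * L) with hY
  have hpg : ∀ g : ℝ, IntegrableOn (fun y => CC O N a y * kk g (p g) δ L y) (Ioi 1) ∧
      ∫ y in Ioi (1 : ℝ), CC O N a y * kk g (p g) δ L y = Phi g (p g) δ L 1 -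
      ∑ n ∈ Finset.Icc 1 N, a n * ∑ m ∈ Finset.Icc 1 ⌊Y⌋₊, O.lam m * Phi g (p g) δ L ((n : ℝ) * m) := by
    intro g
    obtain ⟨q1, q2, q3, q4, _⟩ := h2.1 g (p g) δ L hδ0 hL1
    apply pairG O N a (Y := Y) (by positivity) _ q2 q3 q4
    intro y hy
    have h5 : -kk g (p g) δ L y = deriv (Phi g (p g) δ L) y := by
      unfold kk
      ring
    rw [h5]
    exact (q1 y hy).hasDerivAt
  have hCk : ∀ y : ℝ, CC O N a y * k y = ∑ g ∈ S, w g * (CC O N a y * kk g (p g) δ L y) := by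
    intro y
    rw [hk, Finset.mul_sum]
    exact Finset.sum_congr rfl fun g _ => by ring
  have hCki : IntegrableOn (fun y => CC O N a y * k y) (Ioi 1) := by
    simp only [hCk]
    exact integrable_finsetSum _ fun g _ => (hpg g).1.const_mul _
  have hk2 : IntegrableOn (fun y : ℝ => ‖k y‖ ^ 2 * y ^ 2) (Ioi 1) := by
    rw [hk]
    exact r1
  have hCS : ‖∫ y in Ioi (1 : ℝ), CC O N a y * k y‖ ^ 2 ≤
      JE O N a * (L * ((1 + 2 * δ) * M + η / 8)) := by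
    refine (pairG_le O N a ha hk2 hCki).trans (mul_le_mul_of_nonneg_left ?_ (JE_nonneg O N a))
    rw [hk]
    refine r2.trans ?_
    apply mul_le_mul_of_nonneg_left _ (by linarith)
    have : 0 ≤ δ * M := by positivity
    linarith
  -- the value of the pairing
  obtain ⟨R, hRd⟩ : ∃ R : ℂ, R = ∑ g ∈ S, w g * ∑ n ∈ Finset.Icc 1 N, a n *
      ∑ m ∈ Finset.Icc 1 ⌊Y⌋₊, O.lam m * Phi g (p g) δ L ((n : ℝ) * m) := ⟨_, rfl⟩
  have hval : ∫ y in Ioi (1 : ℝ), CC O N a y * k y = (M : ℂ) - R := by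
    simp only [hCk]
    rw [integral_finsetSum _ fun g _ => (hpg g).1.const_mul _]
    have e1 : (M : ℂ) = ∑ g ∈ S, w g * Phi g (p g) δ L 1 := by
      rw [hMd, Complex.ofReal_sum]
      refine Finset.sum_congr rfl fun g _ => ?_
      rw [← hw1, (h2.1 g (p g) δ L hδ0 hL1).2.2.2.2]
      ring
    rw [e1, hRd, ← Finset.sum_sub_distrib]
    refine Finset.sum_congr rfl fun g _ => ?_
    rw [integral_const_mul, (hpg g).2]
    ring
  have hR : ‖R‖ ≤ W * (C3 * (1 + Real.sqrt (JE O N a))) * Real.exp (-(2 * L)) := by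
    have e1 : ∀ g ∈ S, ‖w g * ∑ n ∈ Finset.Icc 1 N, a n *
        ∑ m ∈ Finset.Icc 1 ⌊Y⌋₊, O.lam m * Phi g (p g) δ L ((n : ℝ) * m)‖ ≤
        (‖w g‖ * C g) * (C3 * (1 + Real.sqrt (JE O N a)) * Real.exp (-(2 * L))) := by
      intro g hg
      rw [norm_mul, mul_assoc]
      apply mul_le_mul_of_nonneg_left _ (norm_nonneg _)
      have e2 : ∀ n ∈ Finset.Icc 1 N, ‖a n *
          ∑ m ∈ Finset.Icc 1 ⌊Y⌋₊, O.lam m * Phi g (p g) δ L ((n : ℝ) * m)‖ ≤
          ‖a n‖ * (C g * Real.exp (-(6 * L))) := by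
        intro n hn
        rw [Finset.mem_Icc] at hn
        rw [norm_mul]
        apply mul_le_mul_of_nonneg_left _ (norm_nonneg _)
        apply hC g hg L hL1 n hn.1
        rw [hexp]
        exact_mod_cast hn.2
      refine (norm_sum_le _ _).trans ((Finset.sum_le_sum e2).trans ?_)
      rw [← Finset.sum_mul]
      have e4 := h3' N a hN ha
      have e5 : (N : ℝ) ^ 4 * Real.exp (-(6 * L)) = Real.exp (-(2 * L)) := by
        rw [← hexp, ← Real.exp_nat_mul, ← Real.exp_add]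
        congr 1
        push_cast
        ring
      have hCg := (hC0 g).le
      calc (∑ n ∈ Finset.Icc 1 N, ‖a n‖) * (C g * Real.exp (-(6 * L)))
          ≤ (C3 * (N : ℝ) ^ 4 * (1 + Real.sqrt (JE O N a))) * (C g * Real.exp (-(6 * L))) :=
            mul_le_mul_of_nonneg_right e4 (by positivity)
        _ = C g * (C3 * (1 + Real.sqrt (JE O N a)) * ((N : ℝ) ^ 4 * Real.exp (-(6 * L)))) := by ring
        _ = _ := by rw [e5]
    rw [hRd]
    refine (norm_sum_le _ _).trans ((Finset.sum_le_sum e1).trans (le_of_eq ?_))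
    rw [← Finset.sum_mul, ← hWd]
    ring
  change M - η ≤ JE O N a * L
  refine Pool.Agent.Q202.BD.final_calc hM hη hδ2 rfl (JE_nonneg O N a) hL1 hLM (norm_nonneg _) ?_ hW0
    hC3.le (Real.exp_pos _).le k3 hCS
  rw [hval]
  have e6 : M ≤ ‖(M : ℂ)‖ := by
    rw [Complex.norm_real, Real.norm_eq_abs]
    exact le_abs_self M
  have e8 : ‖(M : ℂ)‖ ≤ ‖(M : ℂ) - R‖ + ‖R‖ := by
    have e7 : (M : ℂ) = (M : ℂ) - R + R := by ring
    conv_lhs => rw [e7]
    exact norm_add_le _ _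
  have e9 : 0 ≤ W / L := by positivity
  linarith

end Pool.Agent.Q298.GB
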