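import Pool.Agent.Q286.GB.Stm

/-! Project GB (helper286), job NO: near orthogonality at a zero of multiplicity `m`. -/

set_option autoImplicit false

namespace Pool.Agent.Q298.GB

open Complex MeasureTheory Filter Topology Set
open Pool.Agent.Q286.BD (cl)
open Pool.Agent.Q286.GB

theorem iter_zero (O : LFn) (g : ℝ) (i : ℕ) (hi : i < mz O g) : iteratedDeriv i O.L (cl g) = 0 := by
  have han : AnalyticAt ℂ O.L (cl g) := O.entire.analyticAt _
  have hne : analyticOrderAt O.L (cl g) ≠ ⊤ := by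
    intro h
    unfold mz analyticOrderNatAt at hi
    rw [h] at hi
    simp at hi
  have h1 : analyticOrderAt O.L (cl g) = mz O g := by
    unfold mz analyticOrderNatAt
    exact (ENat.natCast_toNat hne).symm
  exact ((analyticOrderAt_eq_nat_iff_iteratedDeriv_eq_zero han).1 h1).1 i hi

theorem hasDeriv_term (m : ℕ) (hm : 1 ≤ m) (z : ℂ) :
    HasDerivAt (fun z : ℂ => (m : ℂ) ^ (-z)) (-((Real.log m : ℝ) : ℂ) * (m : ℂ) ^ (-z)) z := by
  have hm0 : (m : ℂ) ≠ 0 := by
    have : m ≠ 0 := by omega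
    exact_mod_cast this
  have h := (hasDerivAt_id z).neg.const_cpow (c := (m : ℂ)) (Or.inl hm0)
  have hlog : Complex.log (m : ℂ) = ((Real.log m : ℝ) : ℂ) := (Complex.natCast_log).symm
  rw [hlog] at h
  refine h.congr_deriv ?_
  change (m : ℂ) ^ (-z) * ((Real.log m : ℝ) : ℂ) * -1 = _
  ring

theorem iter_S (s : Finset ℕ) (hs : ∀ m ∈ s, 1 ≤ m) (i : ℕ) : ∀ b : ℕ → ℂ,
    iteratedDeriv i (fun z : ℂ => ∑ m ∈ s, b m * (m : ℂ) ^ (-z)) =
      fun z : ℂ => ∑ m ∈ s, b m * (-((Real.log m : ℝ) : ℂ)) ^ i * (m : ℂ) ^ (-z) := by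
  induction i with
  | zero =>
    intro b
    rw [iteratedDeriv_zero]
    simp
  | succ i ih =>
    intro b
    have h1 : deriv (fun z : ℂ => ∑ m ∈ s, b m * (m : ℂ) ^ (-z)) =
        fun z : ℂ => ∑ m ∈ s, (b m * (-((Real.log m : ℝ) : ℂ))) * (m : ℂ) ^ (-z) := by
      funext z
      have h2 : HasDerivAt (fun z : ℂ => ∑ m ∈ s, b m * (m : ℂ) ^ (-z))
          (∑ m ∈ s, b m * (-((Real.log m : ℝ) : ℂ) * (m : ℂ) ^ (-z))) z :=
        HasDerivAt.fun_sum fun m hm => (hasDeriv_term m (hs m hm) z).const_mul (b m)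
      rw [h2.deriv]
      exact Finset.sum_congr rfl fun m _ => by ring
    rw [iteratedDeriv_succ', h1, ih]
    funext z
    exact Finset.sum_congr rfl fun m _ => by ring

/-- the sums with powers of the logarithm -/
noncomputable def Di (O : LFn) (g X : ℝ) (i : ℕ) : ℂ := ∑ m ∈ Finset.Icc 1 ⌊2 * X⌋₊,
  O.lam m * (m : ℂ) ^ (-cl g) * ((Hc (m / X) : ℝ) : ℂ) * ((Real.log m : ℝ) : ℂ) ^ i

theorem Di_le (h : S_VO) (O : LFn) (g B : ℝ) : ∃ C : ℝ, 0 < C ∧ ∀ i < mz O g, ∀ X : ℝ, 1 ≤ X →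
    ‖Di O g X i‖ ≤ C * X ^ (-B) := by
  obtain ⟨C, hC, h⟩ := h O B (‖cl g‖ + 1)
  refine ⟨(mz O g).factorial * C, by positivity, ?_⟩
  intro i hi X hX
  have hX0 : 0 < X := by linarith
  set b : ℕ → ℂ := fun m => O.lam m * ((Hc (m / X) : ℝ) : ℂ) with hb
  set S : ℂ → ℂ := fun z => ∑ m ∈ Finset.Icc 1 ⌊2 * X⌋₊, b m * (m : ℂ) ^ (-z) with hS
  have hSd : Differentiable ℂ S := by
    intro z
    have h2 : HasDerivAt S
        (∑ m ∈ Finset.Icc 1 ⌊2 * X⌋₊, b m * (-((Real.log m : ℝ) : ℂ) * (m : ℂ) ^ (-z))) z :=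
      HasDerivAt.fun_sum fun m hm => (hasDeriv_term m (Finset.mem_Icc.1 hm).1 z).const_mul (b m)
    exact h2.differentiableAt
  have h1 : ‖iteratedDeriv i (S - O.L) (cl g)‖ ≤ i.factorial * (C * X ^ (-B)) / 1 ^ i := by
    apply Complex.norm_iteratedDeriv_le_of_forall_mem_sphere_norm_le i one_pos
    · exact (hSd.sub O.entire).diffContOnCl
    · intro z hz
      have hz1 : ‖z‖ ≤ ‖cl g‖ + 1 := by
        have h3 : ‖z - cl g‖ = 1 := by
          rw [← dist_eq_norm]
          exact Metric.mem_sphere.1 hz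
        have h4 : z = cl g + (z - cl g) := by ring
        rw [h4]
        refine (norm_add_le _ _).trans ?_
        rw [h3]
      have h3 := h z hz1 X hX
      have h4 : (S - O.L) z = ∑ m ∈ Finset.Icc 1 ⌊2 * X⌋₊, O.lam m * (m : ℂ) ^ (-z) *
          ((Hc (m / X) : ℝ) : ℂ) - O.L z := by
        simp only [Pi.sub_apply, hS, hb]
        congr 1
        exact Finset.sum_congr rfl fun m _ => by ring
      rw [h4]
      exact h3
  have h2 : iteratedDeriv i (S - O.L) (cl g) = (-1) ^ i * Di O g X i := by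
    rw [iteratedDeriv_sub (hSd.contDiff.contDiffAt) (O.entire.contDiff.contDiffAt),
      iter_zero O g i hi, sub_zero, hS,
      iter_S _ (fun m hm => (Finset.mem_Icc.1 hm).1) i b]
    unfold Di
    simp only [hb]
    rw [Finset.mul_sum]
    refine Finset.sum_congr rfl fun m _ => ?_
    rw [neg_pow]
    ring
  rw [h2, norm_mul, norm_pow, norm_neg, norm_one, one_pow, one_mul, div_one] at h1
  refine h1.trans ?_
  have h5 : ((i.factorial : ℕ) : ℝ) ≤ (mz O g).factorial := by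
    exact_mod_cast Nat.factorial_le hi.le
  calc (i.factorial : ℝ) * (C * X ^ (-B)) ≤ (mz O g).factorial * (C * X ^ (-B)) :=
        mul_le_mul_of_nonneg_right h5 (by positivity)
    _ = _ := by ring

theorem poly_eval (p : Polynomial ℝ) (M : ℕ) (h : p.degree < M) (x : ℝ) :
    p.eval x = ∑ j ∈ Finset.range M, p.coeff j * x ^ j := by
  by_cases hp : p = 0
  · subst hp
    simp
  · exact Polynomial.eval_eq_sum_range' ((Polynomial.natDegree_lt_iff_degree_lt hp).2 h) x

theorem Hc_zero {y : ℝ} (h : 2 ≤ y) : Hc y = 0 := by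
  unfold Hc
  exact Real.smoothTransition.zero_of_nonpos (by linarith)

/-- the value of `Phi` at a product -/
theorem Phi_mul (g : ℝ) (p : Polynomial ℝ) (M : ℕ) (h : p.degree < M) (δ T : ℝ) (n m : ℕ)
    (hn : 1 ≤ n) (hm : 1 ≤ m) :
    Phi g p δ T (n * m) = 1 / cl g * (n : ℂ) ^ (-cl g) * ∑ j ∈ Finset.range M,
      ((p.coeff j / ((1 + δ) * T) ^ j : ℝ) : ℂ) * ∑ i ∈ Finset.range (j + 1),
        ((Real.log n ^ (j - i) * (j.choose i : ℝ) : ℝ) : ℂ) *
        ((m : ℂ) ^ (-cl g) * ((Hc (m / (Real.exp ((1 + δ) * T) / n)) : ℝ) : ℂ) *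
          ((Real.log m : ℝ) : ℂ) ^ i) := by
  have hn0 : (0 : ℝ) < n := by exact_mod_cast hn
  have hm0 : (0 : ℝ) < m := by exact_mod_cast hm
  have e1 : (((n : ℝ) * (m : ℝ) : ℝ) : ℂ) ^ (-cl g) = (n : ℂ) ^ (-cl g) * (m : ℂ) ^ (-cl g) := by
    have := Complex.mul_cpow_ofReal_nonneg hn0.le hm0.le (-cl g)
    push_cast at this ⊢
    exact this
  have e2 : (n : ℝ) * m * Real.exp (-((1 + δ) * T)) = m / (Real.exp ((1 + δ) * T) / n) := by
    rw [Real.exp_neg]
    field_simp
  have e3 : p.eval (Real.log ((n : ℝ) * m) / ((1 + δ) * T)) = ∑ j ∈ Finset.range M,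
      p.coeff j / ((1 + δ) * T) ^ j * ∑ i ∈ Finset.range (j + 1),
        Real.log n ^ (j - i) * (j.choose i : ℝ) * Real.log m ^ i := by
    rw [poly_eval p M h]
    refine Finset.sum_congr rfl fun j _ => ?_
    rw [Real.log_mul hn0.ne' hm0.ne', add_comm, div_pow, add_pow]
    rw [mul_div_assoc', div_mul_eq_mul_div, Finset.mul_sum, Finset.mul_sum]
    congr 1
    exact Finset.sum_congr rfl fun i _ => by ring
  unfold Phi
  rw [e1, e2, e3]
  push_cast
  simp only [Finset.mul_sum, Finset.sum_mul]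
  refine Finset.sum_congr rfl fun j _ => Finset.sum_congr rfl fun i _ => ?_
  ring

theorem t_NO (h : S_VO) : S_NO := by
  intro O g p hg hp δ B hδ
  obtain ⟨C, hC, hD⟩ := Di_le h O g ((|B| + 1) / δ)
  set M := mz O g with hM
  set A : ℝ := ∑ j ∈ Finset.range M, |p.coeff j| * (2 : ℝ) ^ j with hA
  have hA0 : 0 ≤ A := Finset.sum_nonneg fun j _ => by positivity
  refine ⟨‖1 / cl g‖ * A * C * M.factorial + 1, by positivity, ?_⟩
  intro T hT n hn hnT
  have hn0 : (0 : ℝ) < n := by exact_mod_cast hn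
  have hn1 : (1 : ℝ) ≤ n := by exact_mod_cast hn
  have hT0 : 0 < T := by linarith
  set τ := (1 + δ) * T with hτ
  have hτ1 : 1 ≤ τ := by nlinarith
  set X := Real.exp τ / n with hX
  have hX1 : Real.exp (δ * T) ≤ X := by
    rw [hX, le_div_iff₀ hn0]
    calc Real.exp (δ * T) * n ≤ Real.exp (δ * T) * Real.exp T := by gcongr
      _ = Real.exp τ := by
        rw [← Real.exp_add, hτ]
        congr 1
        ring
  have hX1' : 1 ≤ X := (Real.one_le_exp (by positivity)).trans hX1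
  have hX0 : 0 < X := by linarith
  have hXle : X ≤ Real.exp τ := div_le_self (Real.exp_pos _).le hn1
  -- reduction of the range and the formula
  have e1 : ∑ m ∈ Finset.Icc 1 ⌊2 * Real.exp τ⌋₊, O.lam m * Phi g p δ T (n * m) =
      1 / cl g * (n : ℂ) ^ (-cl g) * ∑ j ∈ Finset.range M,
      ((p.coeff j / τ ^ j : ℝ) : ℂ) * ∑ i ∈ Finset.range (j + 1),
        ((Real.log n ^ (j - i) * (j.choose i : ℝ) : ℝ) : ℂ) * Di O g X i := by
    have e2 : ∑ m ∈ Finset.Icc 1 ⌊2 * Real.exp τ⌋₊, O.lam m * Phi g p δ T (n * m) =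
        ∑ m ∈ Finset.Icc 1 ⌊2 * X⌋₊, O.lam m * Phi g p δ T (n * m) := by
      symm
      apply Finset.sum_subset
      · apply Finset.Icc_subset_Icc le_rfl
        apply Nat.floor_mono
        linarith
      · intro m hm hm'
        rw [Finset.mem_Icc] at hm hm'
        have h1 : ⌊2 * X⌋₊ < m := by
          by_contra h2
          exact hm' ⟨hm.1, by omega⟩
        have h2 : 2 * X < m := (Nat.floor_lt (by positivity)).1 h1
        have h3 : Hc (m / X) = 0 := by
          apply Hc_zero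
          rw [le_div_iff₀ hX0]
          exact h2.le
        rw [Phi_mul g p M hp δ T n m hn hm.1, ← hτ, ← hX, h3]
        simp
    rw [e2]
    have e3 : ∀ m ∈ Finset.Icc 1 ⌊2 * X⌋₊, O.lam m * Phi g p δ T (n * m) =
        ∑ j ∈ Finset.range M, ∑ i ∈ Finset.range (j + 1),
          1 / cl g * (n : ℂ) ^ (-cl g) * ((p.coeff j / τ ^ j : ℝ) : ℂ) *
          ((Real.log n ^ (j - i) * (j.choose i : ℝ) : ℝ) : ℂ) *
          (O.lam m * (m : ℂ) ^ (-cl g) * ((Hc (m / X) : ℝ) : ℂ) * ((Real.log m : ℝ) : ℂ) ^ i) := by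
      intro m hm
      rw [Finset.mem_Icc] at hm
      rw [Phi_mul g p M hp δ T n m hn hm.1, ← hτ, ← hX]
      simp only [Finset.mul_sum]
      refine Finset.sum_congr rfl fun j _ => Finset.sum_congr rfl fun i _ => ?_
      ring
    rw [Finset.sum_congr rfl e3, Finset.sum_comm]
    rw [Finset.mul_sum]
    refine Finset.sum_congr rfl fun j _ => ?_
    rw [Finset.sum_comm, Finset.mul_sum, Finset.mul_sum]
    refine Finset.sum_congr rfl fun i _ => ?_
    unfold Di
    rw [Finset.mul_sum, Finset.mul_sum, Finset.mul_sum]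
    exact Finset.sum_congr rfl fun m _ => by ring
  rw [e1]
  -- estimates
  have hcl : ‖(n : ℂ) ^ (-cl g)‖ ≤ 1 := by
    rw [Complex.norm_natCast_cpow_of_pos hn]
    have : (-cl g).re = -(1 / 2) := by
      unfold cl
      simp
    rw [this]
    exact Real.rpow_le_one_of_one_le_of_nonpos hn1 (by norm_num)
  have hXB : X ^ (-((|B| + 1) / δ)) ≤ Real.exp (-((|B| + 1) * T)) := by
    calc X ^ (-((|B| + 1) / δ)) ≤ Real.exp (δ * T) ^ (-((|B| + 1) / δ)) := by
          apply Real.rpow_le_rpow_of_nonpos (Real.exp_pos _) hX1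
          rw [neg_nonpos]
          positivity
      _ = _ := by
          rw [← Real.exp_mul]
          congr 1
          field_simp
  have hlogn0 : 0 ≤ Real.log n := Real.log_nonneg hn1
  have hlogn : Real.log n ≤ T := by
    rw [Real.log_le_iff_le_exp hn0]
    exact hnT
  have hin : ∀ j ∈ Finset.range M, ‖((p.coeff j / τ ^ j : ℝ) : ℂ) * ∑ i ∈ Finset.range (j + 1),
        ((Real.log n ^ (j - i) * (j.choose i : ℝ) : ℝ) : ℂ) * Di O g X i‖ ≤
      |p.coeff j| * (2 : ℝ) ^ j * (T ^ M * (C * Real.exp (-((|B| + 1) * T)))) := by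
    intro j hj
    rw [Finset.mem_range] at hj
    rw [norm_mul, Complex.norm_real, Real.norm_eq_abs, abs_div, abs_of_pos (show 0 < τ ^ j by positivity)]
    have h1 : |p.coeff j| / τ ^ j ≤ |p.coeff j| := div_le_self (abs_nonneg _) (one_le_pow₀ hτ1)
    have h2 : ‖∑ i ∈ Finset.range (j + 1),
        ((Real.log n ^ (j - i) * (j.choose i : ℝ) : ℝ) : ℂ) * Di O g X i‖ ≤
        (2 : ℝ) ^ j * (T ^ M * (C * Real.exp (-((|B| + 1) * T)))) := by
      refine (norm_sum_le _ _).trans ?_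
      have h3 : ∀ i ∈ Finset.range (j + 1),
          ‖((Real.log n ^ (j - i) * (j.choose i : ℝ) : ℝ) : ℂ) * Di O g X i‖ ≤
          (j.choose i : ℝ) * (T ^ M * (C * Real.exp (-((|B| + 1) * T)))) := by
        intro i hi
        rw [Finset.mem_range] at hi
        rw [norm_mul, Complex.norm_real, Real.norm_eq_abs, abs_of_nonneg (by positivity)]
        have h4 := (hD i (by omega) X hX1').trans (mul_le_mul_of_nonneg_left hXB hC.le)
        have h5 : Real.log n ^ (j - i) ≤ T ^ M :=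
          (pow_le_pow_left₀ hlogn0 hlogn _).trans (pow_le_pow_right₀ hT (by omega))
        calc Real.log n ^ (j - i) * (j.choose i : ℝ) * ‖Di O g X i‖ ≤
              T ^ M * (j.choose i : ℝ) * (C * Real.exp (-((|B| + 1) * T))) := by gcongr
          _ = _ := by ring
      refine (Finset.sum_le_sum h3).trans ?_
      rw [← Finset.sum_mul]
      have h6 : ∑ i ∈ Finset.range (j + 1), (j.choose i : ℝ) = (2 : ℝ) ^ j := by
        exact_mod_cast Nat.sum_range_choose j
      rw [h6]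
    calc |p.coeff j| / τ ^ j * ‖∑ i ∈ Finset.range (j + 1),
        ((Real.log n ^ (j - i) * (j.choose i : ℝ) : ℝ) : ℂ) * Di O g X i‖ ≤
        |p.coeff j| * ((2 : ℝ) ^ j * (T ^ M * (C * Real.exp (-((|B| + 1) * T))))) :=
          mul_le_mul h1 h2 (norm_nonneg _) (abs_nonneg _)
      _ = _ := by ring
  have hTM : T ^ M ≤ M.factorial * Real.exp T := by
    have h1 := Real.pow_div_factorial_le_exp T hT0.le M
    rw [div_le_iff₀ (by positivity)] at h1
    linarith
  have hexp : Real.exp T * Real.exp (-((|B| + 1) * T)) ≤ Real.exp (-(B * T)) := by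
    rw [← Real.exp_add]
    apply Real.exp_le_exp.2
    have := le_abs_self B
    nlinarith
  rw [norm_mul, norm_mul]
  have hsum : ‖∑ j ∈ Finset.range M, ((p.coeff j / τ ^ j : ℝ) : ℂ) * ∑ i ∈ Finset.range (j + 1),
        ((Real.log n ^ (j - i) * (j.choose i : ℝ) : ℝ) : ℂ) * Di O g X i‖ ≤
      A * (M.factorial * C * Real.exp (-(B * T))) := by
    refine (norm_sum_le _ _).trans ((Finset.sum_le_sum hin).trans ?_)
    rw [← Finset.sum_mul, ← hA]
    apply mul_le_mul_of_nonneg_left _ hA0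
    calc T ^ M * (C * Real.exp (-((|B| + 1) * T))) ≤
          (M.factorial * Real.exp T) * (C * Real.exp (-((|B| + 1) * T))) := by gcongr
      _ = M.factorial * C * (Real.exp T * Real.exp (-((|B| + 1) * T))) := by ring
      _ ≤ _ := mul_le_mul_of_nonneg_left hexp (by positivity)
  calc ‖1 / cl g‖ * ‖(n : ℂ) ^ (-cl g)‖ * ‖∑ j ∈ Finset.range M, ((p.coeff j / τ ^ j : ℝ) : ℂ) *
        ∑ i ∈ Finset.range (j + 1),
        ((Real.log n ^ (j - i) * (j.choose i : ℝ) : ℝ) : ℂ) * Di O g X i‖ ≤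
      ‖1 / cl g‖ * 1 * (A * (M.factorial * C * Real.exp (-(B * T)))) := by gcongr
    _ = ‖1 / cl g‖ * A * C * M.factorial * Real.exp (-(B * T)) := by ring
    _ ≤ _ := by
      apply mul_le_mul_of_nonneg_right _ (Real.exp_pos _).le
      linarith

end Pool.Agent.Q298.GB
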