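import Pool.Agent.Q298.GB.Base

/-! Project GB (helper286), job NRH: the distance is bounded below if the Riemann hypothesis fails. -/

set_option autoImplicit false

namespace Pool.Agent.Q298.GB

open Complex MeasureTheory Filter Topology Set
open Pool.Agent.Q286.BD (cl)
open Pool.Agent.Q286.GB

/-- the difference `(k+1)^(-s) - (k+2)^(-s)` -/
noncomputable def dk (k : ℕ) (s : ℂ) : ℂ := ((k + 1 : ℕ) : ℂ) ^ (-s) - ((k + 2 : ℕ) : ℂ) ^ (-s)

theorem dk_le (k : ℕ) (s : ℂ) (hs : 0 ≤ s.re) : ‖dk k s‖ ≤ ‖s‖ * ((k : ℝ) + 1) ^ (-s.re - 1) := by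
  have hk : (0 : ℝ) < (k : ℝ) + 1 := by positivity
  have hd : ∀ x ∈ Icc ((k : ℝ) + 1) (k + 2), HasDerivWithinAt (fun x : ℝ => (x : ℂ) ^ (-s))
      (-s * (x : ℂ) ^ (-s - 1)) (Icc ((k : ℝ) + 1) (k + 2)) x := by
    intro x hx
    have hx0 : 0 < x := lt_of_lt_of_le hk hx.1
    have h := ((hasDerivAt_id (x : ℂ)).cpow_const (c := -s)
      (Or.inl (by simpa using hx0))).comp_ofReal
    have h' : HasDerivAt (fun x : ℝ => (x : ℂ) ^ (-s)) (-s * (x : ℂ) ^ (-s - 1)) x := by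
      simpa using h
    exact h'.hasDerivWithinAt
  have hb : ∀ x ∈ Icc ((k : ℝ) + 1) (k + 2), ‖-s * (x : ℂ) ^ (-s - 1)‖ ≤
      ‖s‖ * ((k : ℝ) + 1) ^ (-s.re - 1) := by
    intro x hx
    have hx0 : 0 < x := lt_of_lt_of_le hk hx.1
    rw [norm_mul, norm_neg, Complex.norm_cpow_eq_rpow_re_of_pos hx0]
    apply mul_le_mul_of_nonneg_left _ (norm_nonneg _)
    have e : (-s - 1).re = -s.re - 1 := by simp
    rw [e]
    exact Real.rpow_le_rpow_of_nonpos hk hx.1 (by linarith)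
  have h := (convex_Icc ((k : ℝ) + 1) (k + 2)).norm_image_sub_le_of_norm_hasDerivWithin_le hd hb
    (x := (k : ℝ) + 1) (y := (k : ℝ) + 2) ⟨le_rfl, by linarith⟩ ⟨by linarith, le_rfl⟩
  have e1 : ‖(k : ℝ) + 2 - ((k : ℝ) + 1)‖ = 1 := by
    have : (k : ℝ) + 2 - ((k : ℝ) + 1) = 1 := by ring
    rw [this, norm_one]
  rw [e1, mul_one] at h
  unfold dk
  rw [norm_sub_rev]
  push_cast at h ⊢
  exact h

theorem dk_diff (k : ℕ) : Differentiable ℂ (dk k) := by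
  unfold dk
  have h1 : ((k + 1 : ℕ) : ℂ) ≠ 0 := by exact_mod_cast Nat.succ_ne_zero k
  have h2 : ((k + 2 : ℕ) : ℂ) ≠ 0 := by exact_mod_cast Nat.succ_ne_zero (k + 1)
  intro s
  have a1 : DifferentiableAt ℂ (fun s : ℂ => -s) s := differentiableAt_id.neg
  exact (a1.const_cpow (Or.inl h1)).sub (a1.const_cpow (Or.inl h2))

/-- the values of `CC` are square summable with weight -/
theorem CC_sum (O : LFn) (N : ℕ) (a : ℕ → ℂ)
    (hint : IntegrableOn (fun y : ℝ => ‖CC O N a y‖ ^ 2 / y ^ 2) (Ioi 1)) (K : ℕ) :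
    ∑ k ∈ Finset.range K, ‖CC O N a ((k + 1 : ℕ) : ℝ)‖ ^ 2 / ((k : ℝ) + 2) ^ 2 ≤ JE O N a := by
  set f : ℝ → ℝ := fun y => ‖CC O N a y‖ ^ 2 / y ^ 2 with hf
  have hfi : ∀ x y : ℝ, 1 ≤ x → x ≤ y → IntervalIntegrable f volume x y := by
    intro x y h1 h2
    rw [intervalIntegrable_iff_integrableOn_Ioc_of_le h2]
    exact hint.mono_set fun z hz => lt_of_le_of_lt h1 hz.1
  have h1 : ∀ k ∈ Finset.range K, ‖CC O N a ((k + 1 : ℕ) : ℝ)‖ ^ 2 / ((k : ℝ) + 2) ^ 2 ≤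
      ∫ y in ((k : ℝ) + 1)..((k + 1 : ℕ) : ℝ) + 1, f y := by
    intro k _
    have hk0 : (0 : ℝ) ≤ k := Nat.cast_nonneg k
    have hle : (k : ℝ) + 1 ≤ ((k + 1 : ℕ) : ℝ) + 1 := by push_cast; linarith
    have h2 : ∫ _ in ((k : ℝ) + 1)..((k + 1 : ℕ) : ℝ) + 1,
        ‖CC O N a ((k + 1 : ℕ) : ℝ)‖ ^ 2 / ((k : ℝ) + 2) ^ 2 =
        ‖CC O N a ((k + 1 : ℕ) : ℝ)‖ ^ 2 / ((k : ℝ) + 2) ^ 2 := by
      rw [intervalIntegral.integral_const, smul_eq_mul]
      push_cast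
      ring
    rw [← h2]
    apply intervalIntegral.integral_mono_on_of_le_Ioo hle
      (intervalIntegrable_const) (hfi _ _ (by linarith) hle)
    intro y hy
    have hy0 : 0 < y := by linarith [hy.1]
    simp only [hf]
    rw [CC_const O N a (k + 1) (by push_cast; exact hy.1.le) hy.2]
    gcongr
    have := hy.2
    push_cast at this
    linarith
  refine (Finset.sum_le_sum h1).trans ?_
  have h2 : ∑ k ∈ Finset.range K, ∫ y in ((k : ℝ) + 1)..((k + 1 : ℕ) : ℝ) + 1, f y =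
      ∫ y in (((0 : ℕ) : ℝ) + 1)..((K : ℝ) + 1), f y := by
    apply intervalIntegral.sum_integral_adjacent_intervals (a := fun k : ℕ => (k : ℝ) + 1)
    intro k _
    apply hfi
    · have hk0 : (0 : ℝ) ≤ k := Nat.cast_nonneg k
      linarith
    · push_cast
      linarith
  rw [h2]
  have hK0 : (0 : ℝ) ≤ K := Nat.cast_nonneg K
  rw [Nat.cast_zero, zero_add, intervalIntegral.integral_of_le (by linarith)]
  exact setIntegral_mono_set hint (Eventually.of_forall fun y => by positivity)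
    (Eventually.of_forall fun y (hy : y ∈ Ioc (1 : ℝ) (K + 1)) => hy.1)

theorem CC_summable (O : LFn) (N : ℕ) (a : ℕ → ℂ)
    (hint : IntegrableOn (fun y : ℝ => ‖CC O N a y‖ ^ 2 / y ^ 2) (Ioi 1)) :
    Summable (fun k : ℕ => ‖CC O N a ((k + 1 : ℕ) : ℝ)‖ ^ 2 / ((k : ℝ) + 2) ^ 2) ∧
    ∑' k : ℕ, ‖CC O N a ((k + 1 : ℕ) : ℝ)‖ ^ 2 / ((k : ℝ) + 2) ^ 2 ≤ JE O N a := by
  have h0 : ∀ k : ℕ, 0 ≤ ‖CC O N a ((k + 1 : ℕ) : ℝ)‖ ^ 2 / ((k : ℝ) + 2) ^ 2 :=
    fun k => by positivity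
  exact ⟨summable_of_sum_range_le h0 (CC_sum O N a hint),
    Real.tsum_le_of_sum_range_le h0 (CC_sum O N a hint)⟩

/-- the comparison series -/
theorem Q_summable {σ : ℝ} (hσ : 1 / 2 < σ) : Summable (fun k : ℕ => ((k : ℝ) + 1) ^ (-(2 * σ))) := by
  have h1 : Summable (fun k : ℕ => (k : ℝ) ^ (-(2 * σ))) := by
    rw [Real.summable_nat_rpow]
    linarith
  have h2 := (summable_nat_add_iff 1).2 h1
  refine h2.congr fun k => ?_
  push_cast
  rfl

/-- arithmetic and geometric mean -/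
theorem amgm (x : ℝ) (k : ℕ) (σ l : ℝ) (hl : 0 < l) (hx : 0 ≤ x) :
    x * ((k : ℝ) + 1) ^ (-σ - 1) ≤ l / 2 * (x ^ 2 / ((k : ℝ) + 2) ^ 2) +
      2 / l * ((k : ℝ) + 1) ^ (-(2 * σ)) := by
  have hk : (0 : ℝ) < (k : ℝ) + 1 := by positivity
  have hk2 : (0 : ℝ) < (k : ℝ) + 2 := by positivity
  have h1 : ((k : ℝ) + 1) ^ (-σ - 1) = ((k : ℝ) + 1) ^ (-σ) * ((k : ℝ) + 1)⁻¹ := by
    rw [sub_eq_add_neg, Real.rpow_add hk, Real.rpow_neg_one]
  have h2 : ((k : ℝ) + 1) ^ (-(2 * σ)) = (((k : ℝ) + 1) ^ (-σ)) ^ 2 := by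
    rw [← Real.rpow_natCast, ← Real.rpow_mul hk.le]
    congr 1
    push_cast
    ring
  rw [h1, h2]
  set q := ((k : ℝ) + 1) ^ (-σ) with hq
  have hq0 : 0 < q := by positivity
  have h3 : ((k : ℝ) + 1)⁻¹ ≤ 2 / ((k : ℝ) + 2) := by
    rw [inv_eq_one_div, div_le_div_iff₀ hk hk2]
    have : (0 : ℝ) ≤ k := Nat.cast_nonneg k
    linarith
  have h4 : x * (q * ((k : ℝ) + 1)⁻¹) ≤ x * (q * (2 / ((k : ℝ) + 2))) := by gcongr
  refine h4.trans ?_
  set u := x / ((k : ℝ) + 2) with hu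
  have h5 : x * (q * (2 / ((k : ℝ) + 2))) = 2 * u * q := by
    rw [hu]
    field_simp
  have h6 : x ^ 2 / ((k : ℝ) + 2) ^ 2 = u ^ 2 := by rw [hu, div_pow]
  rw [h5, h6]
  have h7 : l / 2 * u ^ 2 + 2 / l * q ^ 2 - 2 * u * q = (l * u - 2 * q) ^ 2 / (2 * l) := by
    field_simp
    ring
  have h8 : 0 ≤ (l * u - 2 * q) ^ 2 / (2 * l) := by positivity
  linarith

/-- the continuation -/
noncomputable def GN (O : LFn) (N : ℕ) (a : ℕ → ℂ) (s : ℂ) : ℂ :=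
  ∑' k : ℕ, CC O N a ((k + 1 : ℕ) : ℝ) * dk k s

theorem term_le (O : LFn) (N : ℕ) (a : ℕ → ℂ) (k : ℕ) (s : ℂ) (hs : 0 ≤ s.re) :
    ‖CC O N a ((k + 1 : ℕ) : ℝ) * dk k s‖ ≤
      ‖s‖ * (‖CC O N a ((k + 1 : ℕ) : ℝ)‖ * ((k : ℝ) + 1) ^ (-s.re - 1)) := by
  rw [norm_mul]
  calc ‖CC O N a ((k + 1 : ℕ) : ℝ)‖ * ‖dk k s‖ ≤
      ‖CC O N a ((k + 1 : ℕ) : ℝ)‖ * (‖s‖ * ((k : ℝ) + 1) ^ (-s.re - 1)) :=
        mul_le_mul_of_nonneg_left (dk_le k s hs) (norm_nonneg _)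
    _ = _ := by ring

theorem GN_bound (O : LFn) (N : ℕ) (a : ℕ → ℂ)
    (hint : IntegrableOn (fun y : ℝ => ‖CC O N a y‖ ^ 2 / y ^ 2) (Ioi 1)) {σ : ℝ} (hσ : 1 / 2 < σ)
    {l : ℝ} (hl : 0 < l) :
    Summable (fun k : ℕ => ‖CC O N a ((k + 1 : ℕ) : ℝ)‖ * ((k : ℝ) + 1) ^ (-σ - 1)) ∧
    ∑' k : ℕ, ‖CC O N a ((k + 1 : ℕ) : ℝ)‖ * ((k : ℝ) + 1) ^ (-σ - 1) ≤
      l / 2 * JE O N a + 2 / l * ∑' k : ℕ, ((k : ℝ) + 1) ^ (-(2 * σ)) := by
  obtain ⟨h1, h2⟩ := CC_summable O N a hint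
  have h3 := Q_summable hσ
  have h4 : Summable (fun k : ℕ => l / 2 * (‖CC O N a ((k + 1 : ℕ) : ℝ)‖ ^ 2 / ((k : ℝ) + 2) ^ 2) +
      2 / l * ((k : ℝ) + 1) ^ (-(2 * σ))) := (h1.mul_left _).add (h3.mul_left _)
  have h5 : ∀ k : ℕ, ‖CC O N a ((k + 1 : ℕ) : ℝ)‖ * ((k : ℝ) + 1) ^ (-σ - 1) ≤
      l / 2 * (‖CC O N a ((k + 1 : ℕ) : ℝ)‖ ^ 2 / ((k : ℝ) + 2) ^ 2) +
      2 / l * ((k : ℝ) + 1) ^ (-(2 * σ)) := fun k => amgm _ k σ l hl (norm_nonneg _)
  have h6 : Summable (fun k : ℕ => ‖CC O N a ((k + 1 : ℕ) : ℝ)‖ * ((k : ℝ) + 1) ^ (-σ - 1)) :=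
    Summable.of_nonneg_of_le (fun k => by positivity) h5 h4
  refine ⟨h6, (h6.tsum_le_tsum h5 h4).trans ?_⟩
  rw [(h1.mul_left _).tsum_add (h3.mul_left _), tsum_mul_left, tsum_mul_left]
  have := mul_le_mul_of_nonneg_left h2 (show 0 ≤ l / 2 by positivity)
  linarith

theorem GN_diff (O : LFn) (N : ℕ) (a : ℕ → ℂ)
    (hint : IntegrableOn (fun y : ℝ => ‖CC O N a y‖ ^ 2 / y ^ 2) (Ioi 1)) :
    DifferentiableOn ℂ (GN O N a) {s : ℂ | 1 / 2 < s.re} := by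
  intro s hs
  have hs' : 1 / 2 < s.re := hs
  apply DifferentiableAt.differentiableWithinAt
  set σ := (1 / 2 + s.re) / 2 with hσ
  have hσ1 : 1 / 2 < σ := by rw [hσ]; linarith
  have hσ2 : σ < s.re := by rw [hσ]; linarith
  set U : Set ℂ := {z : ℂ | σ < z.re} ∩ Metric.ball 0 (‖s‖ + 1) with hU
  have hUo : IsOpen U := (isOpen_lt continuous_const Complex.continuous_re).inter Metric.isOpen_ball
  have hsU : s ∈ U := ⟨hσ2, by rw [mem_ball_zero_iff]; linarith⟩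
  have h1 := (GN_bound O N a hint hσ1 one_pos).1
  have h2 : DifferentiableOn ℂ (GN O N a) U := by
    refine differentiableOn_tsum_of_summable_norm (u := fun k : ℕ => (‖s‖ + 1) *
      (‖CC O N a ((k + 1 : ℕ) : ℝ)‖ * ((k : ℝ) + 1) ^ (-σ - 1))) (h1.mul_left _) ?_ hUo ?_
    · intro k
      exact ((dk_diff k).const_mul _).differentiableOn
    · intro k z hz
      have hz1 : σ < z.re := hz.1
      have hz2 : ‖z‖ < ‖s‖ + 1 := mem_ball_zero_iff.1 hz.2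
      refine (term_le O N a k z (by linarith)).trans ?_
      have h3 : ((k : ℝ) + 1) ^ (-z.re - 1) ≤ ((k : ℝ) + 1) ^ (-σ - 1) :=
        Real.rpow_le_rpow_of_exponent_le (by
          have : (0 : ℝ) ≤ k := Nat.cast_nonneg k
          linarith) (by linarith)
      gcongr
  exact h2.differentiableAt (hUo.mem_nhds hsU)

theorem partial_sum (O : LFn) (N : ℕ) (a : ℕ → ℂ) (s : ℂ) (K : ℕ) :
    ∑ k ∈ Finset.range K, CC O N a ((k + 1 : ℕ) : ℝ) * dk k s =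
      1 - ∑ j ∈ Finset.Icc 1 K, cc O N a j * (j : ℂ) ^ (-s) -
        CC O N a (K : ℝ) * ((K + 1 : ℕ) : ℂ) ^ (-s) := by
  induction K with
  | zero =>
    rw [CC_zero]
    simp
  | succ K ih =>
    rw [Finset.sum_range_succ, ih, Finset.sum_Icc_succ_top (by omega), CC_succ]
    unfold dk
    ring

/-- the Dirichlet polynomial -/
noncomputable def AN (N : ℕ) (a : ℕ → ℂ) (s : ℂ) : ℂ := ∑ n ∈ Finset.Icc 1 N, a n * (n : ℂ) ^ (-s)

theorem cc_hasSum (O : LFn) (N : ℕ) (a : ℕ → ℂ) (s : ℂ) (hs : 2 ≤ s.re) :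
    Tendsto (fun K : ℕ => ∑ j ∈ Finset.Icc 1 K, cc O N a j * (j : ℂ) ^ (-s)) atTop
      (𝓝 (AN N a s * O.L s)) := by
  have hterm : ∀ (f : ℕ → ℂ), f 0 = 0 → ∀ n : ℕ, LSeries.term f s n = f n * (n : ℂ) ^ (-s) := by
    intro f hf n
    rw [LSeries.term_def]
    split_ifs with h
    · rw [h, hf, zero_mul]
    · rw [Complex.cpow_neg, div_eq_mul_inv]
  have h1 : LSeriesHasSum (fun n => fl O n) s (O.L s) := by
    unfold LSeriesHasSum
    have h := O.ser s hs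
    refine h.congr_fun ?_ 
    intro n
    rw [hterm _ (by exact O.lam_zero)]
    rfl
  have h2 : LSeriesHasSum (fun n => fa N a n) s (AN N a s) := by
    unfold LSeriesHasSum
    have e : AN N a s = ∑ n ∈ Finset.Icc 1 N, LSeries.term (fun n => fa N a n) s n := by
      unfold AN
      refine Finset.sum_congr rfl fun n hn => ?_
      rw [Finset.mem_Icc] at hn
      rw [hterm _ (by simp)]
      congr 1
      change a n = (if n = 0 then 0 else if n ≤ N then a n else 0)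
      rw [if_neg (by omega), if_pos hn.2]
    rw [e]
    apply hasSum_sum_of_ne_finset_zero
    intro n hn
    rw [hterm _ (by simp)]
    have h3 : fa N a n = 0 := by
      change (if n = 0 then 0 else if n ≤ N then a n else 0) = 0
      rw [Finset.mem_Icc] at hn
      by_cases h0 : n = 0
      · rw [if_pos h0]
      · rw [if_neg h0, if_neg (by omega)]
    rw [h3, zero_mul]
  have h3 := ArithmeticFunction.LSeriesHasSum_mul h2 h1
  have h4 := h3.tendsto_sum_nat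
  have h5 := h4.comp (tendsto_add_atTop_nat 1)
  refine h5.congr fun K => ?_
  simp only [Function.comp]
  rw [Finset.sum_range_succ']
  have h6 : LSeries.term (fun n => (fa N a * fl O) n) s 0 = 0 := by simp
  rw [h6, add_zero, Finset.range_eq_Ico, Finset.sum_Ico_add' (fun j => LSeries.term (fun n => (fa N a * fl O) n) s j) 0 K 1]
  have h7 : Finset.Ico (0 + 1) (K + 1) = Finset.Icc 1 K := by
    ext n
    rw [Finset.mem_Ico, Finset.mem_Icc]
    omega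
  rw [h7]
  refine Finset.sum_congr rfl fun j _ => ?_
  rw [hterm _ (by simp), cc_eq]

theorem GN_eq (O : LFn) (N : ℕ) (a : ℕ → ℂ)
    (hint : IntegrableOn (fun y : ℝ => ‖CC O N a y‖ ^ 2 / y ^ 2) (Ioi 1)) (s : ℂ) (hs : 2 ≤ s.re) :
    GN O N a s = 1 - AN N a s * O.L s := by
  have h1 : Summable (fun k : ℕ => CC O N a ((k + 1 : ℕ) : ℝ) * dk k s) := by
    apply Summable.of_norm_bounded
      (g := fun k : ℕ => ‖s‖ * (‖CC O N a ((k + 1 : ℕ) : ℝ)‖ * ((k : ℝ) + 1) ^ (-s.re - 1)))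
    · exact ((GN_bound O N a hint (by linarith) one_pos).1).mul_left _
    · intro k
      exact term_le O N a k s (by linarith)
  have h2 := h1.hasSum.tendsto_sum_nat
  have h3 : Tendsto (fun K : ℕ => CC O N a (K : ℝ) * ((K + 1 : ℕ) : ℂ) ^ (-s)) atTop (𝓝 0) := by
    have hJ : 0 ≤ Real.sqrt (JE O N a) := Real.sqrt_nonneg _
    apply squeeze_zero_norm' (a := fun K : ℕ => Real.sqrt (JE O N a) * (1 / ((K : ℝ) + 1)))
    · filter_upwards [eventually_ge_atTop 1] with K hK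
      have hK0 : (0 : ℝ) < (K : ℝ) + 1 := by positivity
      have hK1 : (1 : ℝ) ≤ (K : ℝ) + 1 := by
        have : (0 : ℝ) ≤ K := Nat.cast_nonneg K
        linarith
      rw [norm_mul, Complex.norm_natCast_cpow_of_pos (Nat.succ_pos K)]
      have h4 := CC_sq O N a hint K hK
      have h5 : (((K + 1 : ℕ) : ℝ)) ^ (-s).re ≤ ((K : ℝ) + 1) ^ (-2 : ℝ) := by
        push_cast
        apply Real.rpow_le_rpow_of_exponent_le hK1
        rw [Complex.neg_re]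
        linarith
      have h6 : ((K : ℝ) + 1) ^ (-2 : ℝ) = 1 / ((K : ℝ) + 1) ^ 2 := by
        rw [Real.rpow_neg hK0.le, one_div]
        congr 1
        exact_mod_cast Real.rpow_natCast ((K : ℝ) + 1) 2
      rw [h6] at h5
      calc ‖CC O N a (K : ℝ)‖ * (((K + 1 : ℕ) : ℝ)) ^ (-s).re ≤
            (((K : ℝ) + 1) * Real.sqrt (JE O N a)) * (1 / ((K : ℝ) + 1) ^ 2) :=
            mul_le_mul h4 h5 (by positivity) (by positivity)
        _ = _ := by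
            field_simp
    · have h4 : Tendsto (fun K : ℕ => 1 / ((K : ℝ) + 1)) atTop (𝓝 0) :=
        tendsto_one_div_add_atTop_nhds_zero_nat
      have h5 := h4.const_mul (Real.sqrt (JE O N a))
      rw [mul_zero] at h5
      exact h5
  have h4 : Tendsto (fun K : ℕ => ∑ k ∈ Finset.range K, CC O N a ((k + 1 : ℕ) : ℝ) * dk k s) atTop
      (𝓝 (1 - AN N a s * O.L s - 0)) := by
    simp only [partial_sum]
    exact (tendsto_const_nhds.sub (cc_hasSum O N a s hs)).sub h3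
  rw [sub_zero] at h4
  exact tendsto_nhds_unique h2 h4

theorem GN_eq' (O : LFn) (N : ℕ) (a : ℕ → ℂ)
    (hint : IntegrableOn (fun y : ℝ => ‖CC O N a y‖ ^ 2 / y ^ 2) (Ioi 1)) (s : ℂ)
    (hs : 1 / 2 < s.re) : GN O N a s = 1 - AN N a s * O.L s := by
  have hUo : IsOpen {s : ℂ | 1 / 2 < s.re} := isOpen_lt continuous_const Complex.continuous_re
  have hA : Differentiable ℂ (AN N a) := by
    intro z
    unfold AN
    apply DifferentiableAt.fun_sum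
    intro n hn
    rw [Finset.mem_Icc] at hn
    have hn0 : (n : ℂ) ≠ 0 := by
      have : n ≠ 0 := by omega
      exact_mod_cast this
    have a1 : DifferentiableAt ℂ (fun s : ℂ => -s) z := differentiableAt_id.neg
    exact (a1.const_cpow (Or.inl hn0)).const_mul _
  have hg : Differentiable ℂ (fun s => 1 - AN N a s * O.L s) :=
    (differentiable_const _).sub (hA.mul O.entire)
  have h1 := (GN_diff O N a hint).analyticOnNhd hUo
  have h2 := hg.differentiableOn.analyticOnNhd hUo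
  have hpre : IsPreconnected {s : ℂ | 1 / 2 < s.re} :=
    (convex_halfSpace_re_gt (1 / 2)).isPreconnected
  have h3 := h1.eqOn_of_preconnected_of_eventuallyEq h2 hpre (z₀ := (3 : ℂ))
    (by
      show 1 / 2 < (3 : ℂ).re
      norm_num) (by
      have h4 : {s : ℂ | 2 < s.re} ∈ 𝓝 (3 : ℂ) :=
        (isOpen_lt continuous_const Complex.continuous_re).mem_nhds (by
          show (2 : ℝ) < (3 : ℂ).re
          norm_num)
      filter_upwards [h4] with z hz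
      exact GN_eq O N a hint z (le_of_lt hz))
  exact h3 hs

theorem t_NRH : S_NRH := by
  intro O hR
  unfold RH at hR
  push Not at hR
  obtain ⟨ρ, hρ1, hρ0⟩ := hR
  set Q : ℝ := ∑' k : ℕ, ((k : ℝ) + 1) ^ (-(2 * ρ.re)) with hQ
  have hQ0 : 0 ≤ Q := tsum_nonneg fun k => by positivity
  have hρn : 0 < ‖ρ‖ := by
    rw [norm_pos_iff]
    rintro rfl
    simp at hρ1
    linarith
  refine ⟨1 / (4 * ‖ρ‖ ^ 2 * (Q + 1)), by positivity, ?_⟩
  intro N a hint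
  have h1 := GN_eq' O N a hint ρ hρ1
  rw [hρ0, mul_zero, sub_zero] at h1
  set l : ℝ := 4 * ‖ρ‖ * (Q + 1) with hl
  have hl0 : 0 < l := by positivity
  obtain ⟨h2, h3⟩ := GN_bound O N a hint hρ1 hl0
  have h4 : ‖GN O N a ρ‖ ≤ ‖ρ‖ * (l / 2 * JE O N a + 2 / l * Q) := by
    unfold GN
    have h5 : ∀ k : ℕ, ‖CC O N a ((k + 1 : ℕ) : ℝ) * dk k ρ‖ ≤
        ‖ρ‖ * (‖CC O N a ((k + 1 : ℕ) : ℝ)‖ * ((k : ℝ) + 1) ^ (-ρ.re - 1)) :=
      fun k => term_le O N a k ρ (by linarith)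
    have h6 := tsum_of_norm_bounded (h2.mul_left ‖ρ‖).hasSum h5
    refine h6.trans ?_
    rw [tsum_mul_left]
    exact mul_le_mul_of_nonneg_left h3 hρn.le
  rw [h1, norm_one] at h4
  have h5 : ‖ρ‖ * (2 / l * Q) ≤ 1 / 2 := by
    rw [hl]
    have : ‖ρ‖ * (2 / (4 * ‖ρ‖ * (Q + 1)) * Q) = Q / (2 * (Q + 1)) := by
      field_simp
      ring
    rw [this, div_le_div_iff₀ (by positivity) (by norm_num)]
    linarith
  have h6 : 1 / 2 ≤ ‖ρ‖ * (l / 2 * JE O N a) := by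
    rw [mul_add] at h4
    linarith
  change _ ≤ JE O N a
  rw [div_le_iff₀ (by positivity)]
  have h7 : ‖ρ‖ * (l / 2 * JE O N a) = 2 * ‖ρ‖ ^ 2 * (Q + 1) * JE O N a := by
    rw [hl]
    ring
  rw [h7] at h6
  linarith

end Pool.Agent.Q298.GB
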