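import Pool.Agent.Q286.GB.Stm

/-! Project GB (helper286): basic facts about `CC`, `cc`. -/

set_option autoImplicit false

namespace Pool.Agent.Q298.GB

open Complex MeasureTheory Filter Topology Set
open Pool.Agent.Q286.BD (cl)
open Pool.Agent.Q286.GB

/-- the squared elementary distance -/
noncomputable def JE (O : LFn) (N : ℕ) (a : ℕ → ℂ) : ℝ := ∫ y in Ioi (1 : ℝ), ‖CC O N a y‖ ^ 2 / y ^ 2

theorem JE_nonneg (O : LFn) (N : ℕ) (a : ℕ → ℂ) : 0 ≤ JE O N a :=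
  setIntegral_nonneg measurableSet_Ioi fun _ _ => by positivity

theorem CC_nat (O : LFn) (N : ℕ) (a : ℕ → ℂ) (k : ℕ) :
    CC O N a (k : ℝ) = 1 - ∑ j ∈ Finset.Icc 1 k, cc O N a j := by
  unfold CC
  rw [Nat.floor_natCast]

theorem CC_const (O : LFn) (N : ℕ) (a : ℕ → ℂ) (k : ℕ) {y : ℝ} (h1 : (k : ℝ) ≤ y) (h2 : y < k + 1) :
    CC O N a y = CC O N a (k : ℝ) := by
  have h3 : ⌊y⌋₊ = k := by
    rw [Nat.floor_eq_iff ((Nat.cast_nonneg k).trans h1)]
    exact ⟨h1, h2⟩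
  unfold CC
  rw [h3, Nat.floor_natCast]

theorem CC_zero (O : LFn) (N : ℕ) (a : ℕ → ℂ) : CC O N a ((0 : ℕ) : ℝ) = 1 := by
  rw [CC_nat]
  simp

theorem CC_succ (O : LFn) (N : ℕ) (a : ℕ → ℂ) (k : ℕ) :
    CC O N a ((k + 1 : ℕ) : ℝ) = CC O N a (k : ℝ) - cc O N a (k + 1) := by
  rw [CC_nat, CC_nat, Finset.sum_Icc_succ_top (by omega)]
  ring

theorem CC_meas (O : LFn) (N : ℕ) (a : ℕ → ℂ) : Measurable (CC O N a) := by
  have h : Measurable (fun k : ℕ => (1 : ℂ) - ∑ j ∈ Finset.Icc 1 k, cc O N a j) :=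
    measurable_of_countable _
  exact h.comp Nat.measurable_floor

theorem CC_sq (O : LFn) (N : ℕ) (a : ℕ → ℂ)
    (hint : IntegrableOn (fun y : ℝ => ‖CC O N a y‖ ^ 2 / y ^ 2) (Ioi 1)) (k : ℕ) (hk : 1 ≤ k) :
    ‖CC O N a (k : ℝ)‖ ≤ ((k : ℝ) + 1) * Real.sqrt (JE O N a) := by
  have hk' : (1 : ℝ) ≤ k := by exact_mod_cast hk
  have hsub : Ioo (k : ℝ) (k + 1) ⊆ Ioi (1 : ℝ) := fun y hy => lt_of_le_of_lt hk' hy.1
  have h1 : ∫ y in Ioo (k : ℝ) (k + 1), ‖CC O N a y‖ ^ 2 / y ^ 2 ≤ JE O N a :=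
    setIntegral_mono_set hint (Eventually.of_forall fun y => by positivity)
      (Eventually.of_forall hsub)
  have h2 : ∫ _ in Ioo (k : ℝ) (k + 1), ‖CC O N a (k : ℝ)‖ ^ 2 / ((k : ℝ) + 1) ^ 2 ≤
      ∫ y in Ioo (k : ℝ) (k + 1), ‖CC O N a y‖ ^ 2 / y ^ 2 := by
    refine setIntegral_mono_on (integrableOn_const (by simp)) (hint.mono_set hsub)
      measurableSet_Ioo ?_
    intro y hy
    have hy0 : 0 < y := by linarith [hy.1]
    rw [CC_const O N a k hy.1.le hy.2]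
    gcongr
    exact hy.2.le
  rw [setIntegral_const, smul_eq_mul] at h2
  have h3 : volume.real (Ioo (k : ℝ) (k + 1)) = 1 := by
    rw [Measure.real, Real.volume_Ioo]
    simp
  rw [h3, one_mul] at h2
  have h4 : ‖CC O N a (k : ℝ)‖ ^ 2 ≤ (((k : ℝ) + 1) * Real.sqrt (JE O N a)) ^ 2 := by
    rw [mul_pow, Real.sq_sqrt (JE_nonneg O N a)]
    have h5 := h2.trans h1
    rw [div_le_iff₀ (by positivity)] at h5
    linarith
  exact le_of_sq_le_sq h4 (by positivity)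

theorem cc_le (O : LFn) (N : ℕ) (a : ℕ → ℂ)
    (hint : IntegrableOn (fun y : ℝ => ‖CC O N a y‖ ^ 2 / y ^ 2) (Ioi 1)) (k : ℕ) (hk : 1 ≤ k) :
    ‖cc O N a k‖ ≤ 1 + 2 * ((k : ℝ) + 1) * Real.sqrt (JE O N a) := by
  obtain ⟨j, rfl⟩ : ∃ j, k = j + 1 := ⟨k - 1, by omega⟩
  have hs := Real.sqrt_nonneg (JE O N a)
  have h1 : cc O N a (j + 1) = CC O N a (j : ℝ) - CC O N a ((j + 1 : ℕ) : ℝ) := by
    rw [CC_succ]
    ring
  rw [h1]
  refine (norm_sub_le _ _).trans ?_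
  have h2 := CC_sq O N a hint (j + 1) (by omega)
  have hj : (0 : ℝ) ≤ j := Nat.cast_nonneg j
  have h3 : ‖CC O N a (j : ℝ)‖ ≤ 1 + ((j : ℝ) + 1) * Real.sqrt (JE O N a) := by
    rcases Nat.eq_zero_or_pos j with h | h
    · rw [h, CC_zero, norm_one]
      push_cast
      nlinarith
    · have := CC_sq O N a hint j h
      linarith
  push_cast at h2 ⊢
  nlinarith

/-- the coefficients, cut at `N`, as an arithmetic function -/
noncomputable def fa (N : ℕ) (a : ℕ → ℂ) : ArithmeticFunction ℂ :=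
  ⟨fun n => if n = 0 then 0 else if n ≤ N then a n else 0, by simp⟩

/-- `lam` as an arithmetic function -/
noncomputable def fl (O : LFn) : ArithmeticFunction ℂ := ⟨O.lam, O.lam_zero⟩

/-- `mu` as an arithmetic function -/
noncomputable def fm (O : LFn) : ArithmeticFunction ℂ := ⟨O.mu, O.mu_zero⟩

theorem fl_fm (O : LFn) : fl O * fm O = 1 := by
  ext n
  rw [ArithmeticFunction.mul_apply, ArithmeticFunction.one_apply]
  rcases Nat.eq_zero_or_pos n with h | h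
  · subst h
    simp
  · exact O.inv n h

theorem cc_eq (O : LFn) (N : ℕ) (a : ℕ → ℂ) (n : ℕ) : (fa N a * fl O) n = cc O N a n := by
  rw [ArithmeticFunction.mul_apply]
  unfold cc
  refine Finset.sum_congr rfl fun p hp => ?_
  have hp1 := Nat.mem_divisorsAntidiagonal.1 hp
  have hp2 : p.1 ≠ 0 := fun h => hp1.2 (by rw [← hp1.1, h, zero_mul])
  change (if p.1 = 0 then 0 else if p.1 ≤ N then a p.1 else 0) * O.lam p.2 = _
  rw [if_neg hp2]

theorem a_eq (O : LFn) (N : ℕ) (a : ℕ → ℂ) (n : ℕ) (h1 : 1 ≤ n) (h2 : n ≤ N) :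
    a n = ∑ p ∈ n.divisorsAntidiagonal, cc O N a p.1 * O.mu p.2 := by
  have h3 : fa N a = fa N a * fl O * fm O := by
    rw [mul_assoc, fl_fm, mul_one]
  have h4 : fa N a n = a n := by
    change (if n = 0 then 0 else if n ≤ N then a n else 0) = a n
    rw [if_neg (by omega), if_pos h2]
  rw [← h4, h3, ArithmeticFunction.mul_apply]
  refine Finset.sum_congr rfl fun p _ => ?_
  rw [cc_eq]
  rfl

end Pool.Agent.Q298.GB
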